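import Mathlib

/-! # Vertex cover when the edges are divided between two players: definitions -/

namespace N598.TP

open Finset

/-- `C` is a vertex cover of `G`: every edge of `G` has an end in `C`. -/
def IsCover {n : ℕ} (G : SimpleGraph (Fin n)) (C : Finset (Fin n)) : Prop :=
  ∀ u v, G.Adj u v → u ∈ C ∨ v ∈ C

/-- The weight of a set of vertices. -/
def wt {n : ℕ} (w : Fin n → ℝ) (C : Finset (Fin n)) : ℝ := ∑ v ∈ C, w v

/-- Every vertex has at most one neighbour: the edges of `G` form a matching. -/
def IsMatch {n : ℕ} (G : SimpleGraph (Fin n)) : Prop :=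
  ∀ u v v', G.Adj u v → G.Adj u v' → v = v'

/-- `G` and `H` are matchings, all edges of `G` belong to the set `S` of pairs of vertices, and
no edge of `H` belongs to `S`. -/
def Valid {n : ℕ} (S : Set (Sym2 (Fin n))) (G H : SimpleGraph (Fin n)) : Prop :=
  IsMatch G ∧ IsMatch H ∧ (∀ u v, G.Adj u v → s(u, v) ∈ S) ∧ (∀ u v, H.Adj u v → s(u, v) ∉ S)

/-- The fraction of the `ω` for which the pair `(G, H)` belongs to at least one of the rectangles
`A ω 0 × B ω 0`, ..., `A ω (M-1) × B ω (M-1)`. -/
noncomputable def frac {n M : ℕ} {Ω : Type} [Fintype Ω]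
    (A B : Ω → Fin M → Set (SimpleGraph (Fin n))) (G H : SimpleGraph (Fin n)) : ℝ :=
  (Nat.card {ω : Ω // ∃ i, G ∈ A ω i ∧ H ∈ B ω i} : ℝ) / (Nat.card Ω : ℝ)

/-- A one-way protocol with private coins and `M` possible messages for two players, Alice and
Bob, who are given graphs on the vertex set `Fin n`: Alice, who knows her graph `G` only, sends
message `i` with probability `prob G i`; Bob, who knows his graph `H` and the message, accepts
if `acc i H` holds. -/
structure OneWay (n M : ℕ) where
  prob : SimpleGraph (Fin n) → Fin M → ℝ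
  nonneg : ∀ G i, 0 ≤ prob G i
  sum_one : ∀ G, ∑ i, prob G i = 1
  acc : Fin M → SimpleGraph (Fin n) → Prop

open Classical in
/-- The probability that Bob accepts. -/
noncomputable def OneWay.accept {n M : ℕ} (P : OneWay n M) (G H : SimpleGraph (Fin n)) : ℝ :=
  ∑ i, if P.acc i H then P.prob G i else 0

/-- A one-way protocol with public coins and `M` possible messages for Alice and Bob: both know
the outcome `ω` of the coins (`ω` has probability `prob ω`); Alice, whose graph is `G`, sends the
message `msg ω G`; Bob, whose graph is `H`, accepts if `acc ω i H` holds for this message `i`. -/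
structure PubOneWay (n M : ℕ) where
  Coin : Type
  fin : Fintype Coin
  prob : Coin → ℝ
  nonneg : ∀ ω, 0 ≤ prob ω
  sum_one : ∑ ω, prob ω = 1
  msg : Coin → SimpleGraph (Fin n) → Fin M
  acc : Coin → Fin M → SimpleGraph (Fin n) → Prop

attribute [instance] PubOneWay.fin

open Classical in
/-- The probability that Bob accepts. -/
noncomputable def PubOneWay.accept {n M : ℕ} (P : PubOneWay n M) (G H : SimpleGraph (Fin n)) : ℝ :=
  ∑ ω, if P.acc ω (P.msg ω G) H then P.prob ω else 0

end N598.TP
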