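import Mathlib
import Pool.Agent.N598.TP.Defs

/-! # Three near-optimal covers almost contain all near-optimal covers -/

namespace N598.TP

open Finset

variable {n : ℕ} {G H : SimpleGraph (Fin n)} {C D U : Finset (Fin n)} {w : Fin n → ℝ}

lemma IsCover.union_sup (hG : IsCover G C) (hH : IsCover H D) : IsCover (G ⊔ H) (C ∪ D) := by
  intro u v huv
  rw [SimpleGraph.sup_adj] at huv
  rcases huv with h | h
  · rcases hG u v h with h | h
    · left; exact mem_union_left _ h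
    · right; exact mem_union_left _ h
  · rcases hH u v h with h | h
    · left; exact mem_union_right _ h
    · right; exact mem_union_right _ h

lemma IsCover.left (h : IsCover (G ⊔ H) C) : IsCover G C := fun u v huv =>
  h u v (by rw [SimpleGraph.sup_adj]; exact Or.inl huv)

lemma IsCover.right (h : IsCover (G ⊔ H) C) : IsCover H C := fun u v huv =>
  h u v (by rw [SimpleGraph.sup_adj]; exact Or.inr huv)

lemma wt_union_add_inter (w : Fin n → ℝ) (C D : Finset (Fin n)) :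
    wt w (C ∪ D) + wt w (C ∩ D) = wt w C + wt w D := by
  unfold wt
  exact Finset.sum_union_inter

lemma wt_mono (hw : ∀ v, 0 ≤ w v) (h : C ⊆ D) : wt w C ≤ wt w D := by
  unfold wt
  exact Finset.sum_le_sum_of_subset_of_nonneg h (fun v _ _ => hw v)

lemma wt_nonneg (hw : ∀ v, 0 ≤ w v) (C : Finset (Fin n)) : 0 ≤ wt w C :=
  Finset.sum_nonneg (fun v _ => hw v)

lemma wt_union_le (hw : ∀ v, 0 ≤ w v) (C D : Finset (Fin n)) :
    wt w (C ∪ D) ≤ wt w C + wt w D := by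
  have := wt_union_add_inter w C D
  have h2 := wt_nonneg hw (C ∩ D)
  linarith

lemma wt_sdiff_add_inter (w : Fin n → ℝ) (C D : Finset (Fin n)) :
    wt w (C \ D) + wt w (C ∩ D) = wt w C := by
  unfold wt
  rw [← Finset.sdiff_inter_self_left C D]
  exact Finset.sum_sdiff Finset.inter_subset_left

lemma wt_union_eq (w : Fin n → ℝ) (U C : Finset (Fin n)) :
    wt w (U ∪ C) = wt w U + wt w (C \ U) := by
  have h1 := wt_union_add_inter w U C
  have h2 := wt_sdiff_add_inter w C U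
  rw [Finset.inter_comm C U] at h2
  linarith

/-- `U` and `D` behave like the union and the intersection of a family of covers. -/
def Sand (G : SimpleGraph (Fin n)) (U D : Finset (Fin n)) : Prop :=
  D ⊆ U ∧ ∀ u v, G.Adj u v → u ∉ U → v ∈ D

lemma Sand.base (hC : IsCover G C) : Sand G C C :=
  ⟨Finset.Subset.refl _, fun u v huv hu => (hC u v huv).resolve_left hu⟩

lemma Sand.step (h : Sand G U D) (hC : IsCover G C) : Sand G (U ∪ C) (D ∩ C) := by
  refine ⟨fun x hx => mem_union_left _ (h.1 (mem_inter.1 hx).1), fun u v huv hu => ?_⟩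
  rw [mem_union, not_or] at hu
  exact mem_inter.2 ⟨h.2 u v huv hu.1, (hC u v huv).resolve_left hu.2⟩

lemma Sand.cover (h : Sand G U D) (hC : IsCover G C) : IsCover G ((C ∩ U) ∪ (D \ C)) := by
  have key : ∀ u v, G.Adj u v → u ∈ C → u ∈ (C ∩ U) ∪ (D \ C) ∨ v ∈ (C ∩ U) ∪ (D \ C) := by
    intro u v huv hu
    by_cases huU : u ∈ U
    · left
      exact mem_union_left _ (mem_inter.2 ⟨hu, huU⟩)
    · right
      have hvD := h.2 u v huv huU
      by_cases hvC : v ∈ C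
      · exact mem_union_left _ (mem_inter.2 ⟨hvC, h.1 hvD⟩)
      · exact mem_union_right _ (mem_sdiff.2 ⟨hvD, hvC⟩)
  intro u v huv
  rcases hC u v huv with hu | hv
  · exact key u v huv hu
  · exact (key v u huv.symm hv).symm

lemma Sand.weight (hw : ∀ v, 0 ≤ w v) (h : Sand G U D) (hC : IsCover G C) {K a : ℝ}
    (hK : wt w C ≤ K) (ha : ∀ C', IsCover G C' → a ≤ wt w C') :
    wt w (U ∪ C) + wt w (D ∩ C) ≤ wt w U + wt w D + (K - a) := by
  have h1 := ha _ (h.cover hC)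
  have h2 := wt_union_le hw (C ∩ U) (D \ C)
  have h3 := wt_union_add_inter w U C
  have h4 := wt_sdiff_add_inter w D C
  rw [Finset.inter_comm U C] at h3
  linarith

/-- If all covers of `G` have weight more than `(1 - c) K`, then the union of some three covers
of weight at most `K` has weight at most `(2 + 2 c) K` and contains every cover of weight at most
`K` except for weight `(1 + 4 c) K / 3`. -/
lemma three_covers (hw : ∀ v, 0 ≤ w v) {K c : ℝ} (hc : 0 < c)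
    (hlow : ∀ C, IsCover G C → (1 - c) * K < wt w C)
    (hex : ∃ C, IsCover G C ∧ wt w C ≤ K) :
    ∃ C₁ C₂ C₃ : Finset (Fin n), (IsCover G C₁ ∧ wt w C₁ ≤ K) ∧ (IsCover G C₂ ∧ wt w C₂ ≤ K) ∧
      (IsCover G C₃ ∧ wt w C₃ ≤ K) ∧ wt w (C₁ ∪ C₂ ∪ C₃) ≤ (2 + 2 * c) * K ∧
      ∀ C, IsCover G C → wt w C ≤ K → wt w (C \ (C₁ ∪ C₂ ∪ C₃)) ≤ (1 + 4 * c) / 3 * K := by
  obtain ⟨C₁, hC₁, hK₁⟩ := hex
  have hlow₁ := hlow _ hC₁
  have hcK : 0 < c * K := by linarith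
  have hKpos : 0 < K := (mul_pos_iff_of_pos_left hc).1 hcK
  have hlow' : ∀ C, IsCover G C → (1 - c) * K ≤ wt w C := fun C hC => (hlow C hC).le
  have s₁ : Sand G C₁ C₁ := Sand.base hC₁
  by_cases h2 : ∀ C, IsCover G C → wt w C ≤ K → wt w (C \ C₁) ≤ (1 + 4 * c) / 3 * K
  · refine ⟨C₁, C₁, C₁, ⟨hC₁, hK₁⟩, ⟨hC₁, hK₁⟩, ⟨hC₁, hK₁⟩, ?_, ?_⟩
    · rw [Finset.union_self, Finset.union_self]; linarith
    · rw [Finset.union_self, Finset.union_self]; exact h2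
  push Not at h2
  obtain ⟨C₂, hC₂, hK₂, hd₂⟩ := h2
  have s₂ := s₁.step hC₂
  have e₂ := s₁.weight hw hC₂ hK₂ hlow'
  have u₂ := wt_union_eq w C₁ C₂
  by_cases h3 : ∀ C, IsCover G C → wt w C ≤ K → wt w (C \ (C₁ ∪ C₂)) ≤ (1 + 4 * c) / 3 * K
  · have n₂ := wt_nonneg hw (C₁ ∩ C₂)
    refine ⟨C₁, C₂, C₂, ⟨hC₁, hK₁⟩, ⟨hC₂, hK₂⟩, ⟨hC₂, hK₂⟩, ?_, ?_⟩
    · rw [Finset.union_assoc, Finset.union_self]; linarith
    · rw [Finset.union_assoc, Finset.union_self]; exact h3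
  push Not at h3
  obtain ⟨C₃, hC₃, hK₃, hd₃⟩ := h3
  have s₃ := s₂.step hC₃
  have e₃ := s₂.weight hw hC₃ hK₃ hlow'
  have u₃ := wt_union_eq w (C₁ ∪ C₂) C₃
  have n₃ := wt_nonneg hw (C₁ ∩ C₂ ∩ C₃)
  refine ⟨C₁, C₂, C₃, ⟨hC₁, hK₁⟩, ⟨hC₂, hK₂⟩, ⟨hC₃, hK₃⟩, by linarith, ?_⟩
  intro C₄ hC₄ hK₄
  by_contra hd₄
  push Not at hd₄
  have e₄ := s₃.weight hw hC₄ hK₄ hlow'
  have u₄ := wt_union_eq w (C₁ ∪ C₂ ∪ C₃) C₄
  have n₄ := wt_nonneg hw (C₁ ∩ C₂ ∩ C₃ ∩ C₄)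
  linarith

/-- If two sets are unions of three sets each, and any two of these have an intersection of
weight at most `t`, then the intersection of the two unions has weight at most `9 t`. -/
lemma wt_inter_three (hw : ∀ v, 0 ≤ w v) {A₁ A₂ A₃ B₁ B₂ B₃ : Finset (Fin n)} {t : ℝ}
    (h : ∀ A B, (A = A₁ ∨ A = A₂ ∨ A = A₃) → (B = B₁ ∨ B = B₂ ∨ B = B₃) → wt w (A ∩ B) ≤ t) :
    wt w ((A₁ ∪ A₂ ∪ A₃) ∩ (B₁ ∪ B₂ ∪ B₃)) ≤ 9 * t := by
  have key : ∀ A, (A = A₁ ∨ A = A₂ ∨ A = A₃) → wt w (A ∩ (B₁ ∪ B₂ ∪ B₃)) ≤ 3 * t := by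
    intro A hA
    have h1 := h A B₁ hA (Or.inl rfl)
    have h2 := h A B₂ hA (Or.inr (Or.inl rfl))
    have h3 := h A B₃ hA (Or.inr (Or.inr rfl))
    rw [Finset.inter_union_distrib_left, Finset.inter_union_distrib_left]
    have h4 := wt_union_le hw (A ∩ B₁ ∪ A ∩ B₂) (A ∩ B₃)
    have h5 := wt_union_le hw (A ∩ B₁) (A ∩ B₂)
    linarith
  have h1 := key A₁ (Or.inl rfl)
  have h2 := key A₂ (Or.inr (Or.inl rfl))
  have h3 := key A₃ (Or.inr (Or.inr rfl))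
  rw [Finset.union_inter_distrib_right, Finset.union_inter_distrib_right]
  have h4 := wt_union_le hw (A₁ ∩ (B₁ ∪ B₂ ∪ B₃) ∪ A₂ ∩ (B₁ ∪ B₂ ∪ B₃)) (A₃ ∩ (B₁ ∪ B₂ ∪ B₃))
  have h5 := wt_union_le hw (A₁ ∩ (B₁ ∪ B₂ ∪ B₃)) (A₂ ∩ (B₁ ∪ B₂ ∪ B₃))
  linarith

/-- The union of three covers of weight at most `K` which almost contains all others. -/
def Good (w : Fin n → ℝ) (K c : ℝ) (G : SimpleGraph (Fin n)) (U : Finset (Fin n)) : Prop :=
  ∃ C₁ C₂ C₃ : Finset (Fin n), (IsCover G C₁ ∧ wt w C₁ ≤ K) ∧ (IsCover G C₂ ∧ wt w C₂ ≤ K) ∧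
      (IsCover G C₃ ∧ wt w C₃ ≤ K) ∧ U = C₁ ∪ C₂ ∪ C₃ ∧ wt w U ≤ (2 + 2 * c) * K ∧
      ∀ C, IsCover G C → wt w C ≤ K → wt w (C \ U) ≤ (1 + 4 * c) / 3 * K

lemma exists_good (hw : ∀ v, 0 ≤ w v) {K c : ℝ} (hc : 0 < c)
    (hlow : ∀ C, IsCover G C → (1 - c) * K < wt w C)
    (hex : ∃ C, IsCover G C ∧ wt w C ≤ K) : ∃ U, Good w K c G U := by
  obtain ⟨C₁, C₂, C₃, h1, h2, h3, h4, h5⟩ := three_covers hw hc hlow hex
  exact ⟨C₁ ∪ C₂ ∪ C₃, C₁, C₂, C₃, h1, h2, h3, rfl, h4, h5⟩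

open Classical in
/-- A fixed good set, if there is one. -/
noncomputable def uset (w : Fin n → ℝ) (K c : ℝ) (G : SimpleGraph (Fin n)) : Finset (Fin n) :=
  if h : ∃ U, Good w K c G U then h.choose else ∅

lemma uset_good {K c : ℝ} (h : ∃ U, Good w K c G U) : Good w K c G (uset w K c G) := by
  unfold uset
  rw [dif_pos h]
  exact h.choose_spec

/-- There is a cover of weight at most `K`. -/
def Has (w : Fin n → ℝ) (K : ℝ) (G : SimpleGraph (Fin n)) : Prop :=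
  ∃ C, IsCover G C ∧ wt w C ≤ K

lemma low_of {K : ℝ} (h2 : ¬ Has w K G) (C : Finset (Fin n)) (hC : IsCover G C) :
    K < wt w C := by
  by_contra h
  exact h2 ⟨C, hC, not_lt.1 h⟩

lemma good_of (hw : ∀ v, 0 ≤ w v) {K c : ℝ} (hc : 0 < c)
    (h1 : Has w K G) (h2 : ¬ Has w ((1 - c) * K) G) : 0 < K ∧ Good w K c G (uset w K c G) := by
  refine ⟨?_, uset_good (exists_good hw hc (low_of h2) h1)⟩
  obtain ⟨C, hC, hK⟩ := h1
  have := low_of h2 C hC
  have hcK : 0 < c * K := by linarith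
  exact (mul_pos_iff_of_pos_left hc).1 hcK

lemma Good.le {K c : ℝ} {U : Finset (Fin n)} (h : Good w K c G U) :
    wt w U ≤ (2 + 2 * c) * K := by
  obtain ⟨_, _, _, _, _, _, _, h, _⟩ := h
  exact h

lemma Good.cover {K c : ℝ} {U : Finset (Fin n)} (h : Good w K c G U) : IsCover G U := by
  obtain ⟨C₁, _, _, hC₁, _, _, rfl, _, _⟩ := h
  intro u v huv
  rcases hC₁.1 u v huv with h | h
  · exact Or.inl (mem_union_left _ (mem_union_left _ h))
  · exact Or.inr (mem_union_left _ (mem_union_left _ h))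

/-- A common near-optimal cover makes the intersection of the two good sets large. -/
lemma inter_yes (hw : ∀ v, 0 ≤ w v) {K c : ℝ} {U U' : Finset (Fin n)}
    (h2 : ¬ Has w ((1 - c) * K) G) (hU : Good w K c G U) (hU' : Good w K c H U')
    (hyes : ∃ C, IsCover (G ⊔ H) C ∧ wt w C ≤ K) :
    (1 - c - 2 * ((1 + 4 * c) / 3)) * K < wt w (U ∩ U') := by
  obtain ⟨C, hC, hCK⟩ := hyes
  obtain ⟨_, _, _, _, _, _, _, _, hUC⟩ := hU
  obtain ⟨_, _, _, _, _, _, _, _, hVC⟩ := hU'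
  have a1 := hUC C hC.left hCK
  have a2 := hVC C hC.right hCK
  have a3 := low_of h2 C hC.left
  have s : C ⊆ (U ∩ U') ∪ (C \ U) ∪ (C \ U') := by
    intro x hx
    by_cases hxU : x ∈ U
    · by_cases hxV : x ∈ U'
      · exact mem_union_left _ (mem_union_left _ (mem_inter.2 ⟨hxU, hxV⟩))
      · exact mem_union_right _ (mem_sdiff.2 ⟨hx, hxV⟩)
    · exact mem_union_left _ (mem_union_right _ (mem_sdiff.2 ⟨hx, hxU⟩))
  have e1 := wt_mono hw s
  have e2 := wt_union_le hw ((U ∩ U') ∪ (C \ U)) (C \ U')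
  have e3 := wt_union_le hw (U ∩ U') (C \ U)
  linarith

/-- If there is no light cover of the union, then the intersection of the two good sets is
small. -/
lemma inter_no (hw : ∀ v, 0 ≤ w v) {K c : ℝ} {U U' : Finset (Fin n)}
    (hU : Good w K c G U) (hU' : Good w K c H U')
    (hno : ∀ C, IsCover (G ⊔ H) C → (2 - c) * K < wt w C) :
    wt w (U ∩ U') ≤ 9 * (c * K) := by
  obtain ⟨C₁, C₂, C₃, hC₁, hC₂, hC₃, rfl, _, _⟩ := hU
  obtain ⟨D₁, D₂, D₃, hD₁, hD₂, hD₃, rfl, _, _⟩ := hU'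
  refine wt_inter_three hw ?_
  have aux : ∀ A B, (IsCover G A ∧ wt w A ≤ K) → (IsCover H B ∧ wt w B ≤ K) →
      wt w (A ∩ B) ≤ c * K := by
    rintro A B ⟨hA, hAK⟩ ⟨hB, hBK⟩
    have e1 := hno _ (hA.union_sup hB)
    have e2 := wt_union_add_inter w A B
    linarith
  intro A B hA hB
  apply aux
  · rcases hA with rfl | rfl | rfl <;> assumption
  · rcases hB with rfl | rfl | rfl <;> assumption

/-- Two light covers. -/
lemma light (hw : ∀ v, 0 ≤ w v) {K c a b : ℝ}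
    (hno : ∀ C, IsCover (G ⊔ H) C → (2 - c) * K < wt w C) (hab : a + b ≤ (2 - c) * K)
    (hG : Has w a G) (hH : Has w b H) : False := by
  obtain ⟨C, hC, hCa⟩ := hG
  obtain ⟨D, hD, hDb⟩ := hH
  have h1 := hno _ (hC.union_sup hD)
  have h2 := wt_union_le hw C D
  linarith

end N598.TP
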