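import Mathlib
import Pool.Agent.N598.TP.Chain

/-! # The randomised one-way protocol with private coins -/

namespace N598.TP

open Finset

variable {n : ℕ}

/-- The distribution of `t` independent samples: probability that one of them is a hit. -/
lemma accept_prod {τ : Type} [Fintype τ] (p : τ → ℝ) (hit : τ → Prop)
    [DecidablePred hit] (t : ℕ) :
    (∑ x : Fin t → τ, if ∃ j, hit (x j) then ∏ j, p (x j) else 0)
      = (∑ y, p y) ^ t - (∑ y, if hit y then 0 else p y) ^ t := by
  rw [Fintype.sum_pow, Fintype.sum_pow, ← Finset.sum_sub_distrib]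
  refine Finset.sum_congr rfl (fun x _ => ?_)
  by_cases h : ∃ j, hit (x j)
  · obtain ⟨j, hj⟩ := h
    have : ∏ i, (if hit (x i) then 0 else p (x i)) = 0 :=
      Finset.prod_eq_zero (Finset.mem_univ j) (by rw [if_pos hj])
    rw [if_pos ⟨j, hj⟩, this, sub_zero]
  · rw [if_neg h]
    push Not at h
    have : ∏ i, (if hit (x i) then 0 else p (x i)) = ∏ i, p (x i) :=
      Finset.prod_congr rfl (fun i _ => by rw [if_neg (h i)])
    rw [this, sub_self]

/-- The distribution of one sample: vertex `v` of `U` with probability `w v / T`, and no vertex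
with the remaining probability. -/
noncomputable def samp (w : Fin n → ℝ) (U : Finset (Fin n)) (T : ℝ) : Option (Fin n) → ℝ
  | none => 1 - wt w U / T
  | some v => if v ∈ U then w v / T else 0

lemma samp_inter (w : Fin n → ℝ) (U S : Finset (Fin n)) (T : ℝ) :
    ∑ v, (if v ∈ S then samp w U T (some v) else 0) = wt w (U ∩ S) / T := by
  unfold wt
  rw [Finset.sum_div]
  have h := Finset.sum_ite_mem univ (U ∩ S) (fun v => w v / T)
  rw [Finset.univ_inter] at h
  rw [← h]
  refine Finset.sum_congr rfl (fun v _ => ?_)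
  by_cases hS : v ∈ S
  · by_cases hU : v ∈ U <;> simp [samp, hS, hU]
  · simp [hS]

lemma samp_sum (w : Fin n → ℝ) (U : Finset (Fin n)) (T : ℝ) : ∑ y, samp w U T y = 1 := by
  rw [Fintype.sum_option]
  have h := samp_inter w U univ T
  simp only [Finset.mem_univ, if_true, Finset.inter_univ] at h
  rw [h]
  simp [samp]

lemma samp_nonneg {w : Fin n → ℝ} (hw : ∀ v, 0 ≤ w v) {U : Finset (Fin n)} {T : ℝ}
    (hT : 0 < T) (hU : wt w U ≤ T) (y : Option (Fin n)) : 0 ≤ samp w U T y := by
  cases y with
  | none =>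
    have : wt w U / T ≤ 1 := by rw [div_le_one hT]; exact hU
    simp only [samp]
    linarith
  | some v =>
    simp only [samp]
    split
    · exact div_nonneg (hw v) hT.le
    · exact le_refl 0

/-- The sample is a vertex of `S`. -/
def Hit (S : Finset (Fin n)) (y : Option (Fin n)) : Prop := ∃ v, y = some v ∧ v ∈ S

lemma samp_hit (w : Fin n → ℝ) (U S : Finset (Fin n)) (T : ℝ) [DecidablePred (Hit S)] :
    ∑ y, (if Hit S y then 0 else samp w U T y) = 1 - wt w (U ∩ S) / T := by
  have h1 := samp_inter w U S T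
  have h2 := samp_sum w U T
  rw [Fintype.sum_option] at h2 ⊢
  have h3 : ¬ Hit S none := by rintro ⟨v, hv, -⟩; cases hv
  rw [if_neg h3]
  have h4 : ∑ v, samp w U T (some v) = (∑ v, if Hit S (some v) then 0 else samp w U T (some v))
      + ∑ v, (if v ∈ S then samp w U T (some v) else 0) := by
    rw [← Finset.sum_add_distrib]
    refine Finset.sum_congr rfl (fun v _ => ?_)
    by_cases hS : v ∈ S
    · have : Hit S (some v) := ⟨v, rfl, hS⟩
      rw [if_pos this, if_pos hS, zero_add]
    · have : ¬ Hit S (some v) := by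
        rintro ⟨v', hv', hS'⟩
        rw [Option.some.injEq] at hv'
        exact hS (hv' ▸ hS')
      rw [if_neg this, if_neg hS, add_zero]
  linarith

/-- The messages: reject; a light cover exists; or `t` symbols. -/
abbrev Msg (t : ℕ) (σ : Type) : Type := Option (Option (Fin t → σ))

/-- The constant `1 / 100`. -/
noncomputable def cc : ℝ := 1 / 100

open Classical in
/-- Probability of each message. -/
noncomputable def mprob (w : Fin n → ℝ) (K : ℝ) (G : SimpleGraph (Fin n)) :
    Msg 7 (Option (Fin n)) → ℝ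
  | none => if Has w K G then 0 else 1
  | some none => if Has w K G ∧ Has w ((1 - cc) * K) G then 1 else 0
  | some (some x) => if Has w K G ∧ ¬ Has w ((1 - cc) * K) G then
      ∏ j, samp w (uset w K cc G) ((2 + 2 * cc) * K) (x j) else 0

/-- Bob's decision. -/
def macc (w : Fin n → ℝ) (K : ℝ) : Msg 7 (Option (Fin n)) → SimpleGraph (Fin n) → Prop
  | none, _ => False
  | some none, H => Has w K H
  | some (some x), H => Has w K H ∧ (Has w ((1 - cc) * K) H ∨ ∃ j, Hit (uset w K cc H) (x j))

lemma mprob_nonneg {w : Fin n → ℝ} (hw : ∀ v, 0 ≤ w v) (K : ℝ) (G : SimpleGraph (Fin n))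
    (m : Msg 7 (Option (Fin n))) : 0 ≤ mprob w K G m := by
  match m with
  | none => simp only [mprob]; split <;> norm_num
  | some none => simp only [mprob]; split <;> norm_num
  | some (some x) =>
    simp only [mprob]
    split
    · rename_i h
      obtain ⟨hK, hg⟩ := good_of hw (by norm_num [cc]) h.1 h.2
      refine Finset.prod_nonneg (fun j _ => samp_nonneg hw ?_ hg.le _)
      have : (0 : ℝ) < 2 + 2 * cc := by norm_num [cc]
      positivity
    · exact le_refl 0

lemma mprob_sum (w : Fin n → ℝ) (K : ℝ) (G : SimpleGraph (Fin n)) : ∑ m, mprob w K G m = 1 := by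
  rw [Fintype.sum_option, Fintype.sum_option]
  by_cases h1 : Has w K G
  · by_cases h2 : Has w ((1 - cc) * K) G
    · simp [mprob, h1, h2]
    · simp only [mprob, h1, h2, if_true, not_false_eq_true, and_self, and_false, if_false,
        zero_add]
      rw [← Fintype.sum_pow, samp_sum, one_pow]
  · simp [mprob, h1]

open Classical in
/-- Acceptance probability. -/
noncomputable def maccept (w : Fin n → ℝ) (K : ℝ) (G H : SimpleGraph (Fin n)) : ℝ :=
  ∑ m, if macc w K m H then mprob w K G m else 0

/-- Acceptance probability when both players have only near-optimal covers. -/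
lemma maccept_samp {w : Fin n → ℝ} {K : ℝ} {G H : SimpleGraph (Fin n)}
    (h1 : Has w K G) (h2 : ¬ Has w ((1 - cc) * K) G) (h3 : Has w K H)
    (h4 : ¬ Has w ((1 - cc) * K) H) :
    maccept w K G H
      = 1 - (1 - wt w (uset w K cc G ∩ uset w K cc H) / ((2 + 2 * cc) * K)) ^ 7 := by
  classical
  unfold maccept
  rw [Fintype.sum_option, Fintype.sum_option]
  simp only [macc, mprob, h1, h2, h3, h4, if_true, not_false_eq_true, and_self, and_false,
    if_false, zero_add, true_and, false_or]
  have h := accept_prod (samp w (uset w K cc G) ((2 + 2 * cc) * K)) (Hit (uset w K cc H)) 7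
  rw [samp_sum, samp_hit, one_pow] at h
  rw [← h]

lemma macc_sound (w : Fin n → ℝ) (hw : ∀ v, 0 ≤ w v) (K : ℝ) (G H : SimpleGraph (Fin n))
    (hno : ∀ C, IsCover (G ⊔ H) C → (2 - cc) * K < wt w C) : maccept w K G H ≤ 1 / 3 := by
  classical
  by_cases h1 : Has w K G
  swap
  · unfold maccept
    rw [Fintype.sum_option, Fintype.sum_option]
    simp only [macc, mprob, h1]
    norm_num
  by_cases h3 : Has w K H
  swap
  · unfold maccept
    rw [Fintype.sum_option, Fintype.sum_option]
    simp only [macc, h3]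
    simp
  by_cases h2 : Has w ((1 - cc) * K) G
  · exact (light hw hno (by linarith) h2 h3).elim
  by_cases h4 : Has w ((1 - cc) * K) H
  · exact (light hw hno (by linarith) h1 h4).elim
  rw [maccept_samp h1 h2 h3 h4]
  obtain ⟨hK, hU⟩ := good_of hw (by norm_num [cc]) h1 h2
  obtain ⟨-, hV⟩ := good_of hw (by norm_num [cc]) h3 h4
  have hall := inter_no hw hU hV hno
  simp only [cc] at *
  have hq : wt w (uset w K (1 / 100) G ∩ uset w K (1 / 100) H) / ((2 + 2 * (1 / 100)) * K)
      ≤ 9 / 202 := by
    rw [div_le_iff₀ (by linarith)]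
    linarith
  have hb := one_add_mul_le_pow
    (a := -(wt w (uset w K (1 / 100) G ∩ uset w K (1 / 100) H) / ((2 + 2 * (1 / 100)) * K)))
    (by linarith) 7
  push_cast at hb
  rw [← sub_eq_add_neg] at hb
  linarith

lemma macc_complete (w : Fin n → ℝ) (hw : ∀ v, 0 ≤ w v) (K : ℝ) (G H : SimpleGraph (Fin n))
    (hyes : ∃ C, IsCover (G ⊔ H) C ∧ wt w C ≤ K) : 2 / 3 ≤ maccept w K G H := by
  classical
  have h1 : Has w K G := by obtain ⟨C, hC, hCK⟩ := hyes; exact ⟨C, hC.left, hCK⟩
  have h3 : Has w K H := by obtain ⟨C, hC, hCK⟩ := hyes; exact ⟨C, hC.right, hCK⟩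
  by_cases h2 : Has w ((1 - cc) * K) G
  · unfold maccept
    rw [Fintype.sum_option, Fintype.sum_option]
    simp only [macc, mprob, h1, h2, h3]
    norm_num
  by_cases h4 : Has w ((1 - cc) * K) H
  · have : maccept w K G H = ∑ m, mprob w K G m := by
      unfold maccept
      rw [Fintype.sum_option, Fintype.sum_option, Fintype.sum_option, Fintype.sum_option]
      simp only [macc, mprob, h1, h2, h3, h4]
      norm_num
    rw [this, mprob_sum]
    norm_num
  rw [maccept_samp h1 h2 h3 h4]
  obtain ⟨hK, hU⟩ := good_of hw (by norm_num [cc]) h1 h2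
  obtain ⟨-, hV⟩ := good_of hw (by norm_num [cc]) h3 h4
  have hall := inter_yes hw h2 hU hV hyes
  have hUle := hU.le
  simp only [cc] at *
  have hp : 89 / 606 ≤ wt w (uset w K (1 / 100) G ∩ uset w K (1 / 100) H)
      / ((2 + 2 * (1 / 100)) * K) := by
    rw [le_div_iff₀ (by linarith)]
    linarith
  have hp1 : wt w (uset w K (1 / 100) G ∩ uset w K (1 / 100) H) / ((2 + 2 * (1 / 100)) * K)
      ≤ 1 := by
    rw [div_le_one (by linarith)]
    have := wt_mono hw (Finset.inter_subset_left :
      uset w K (1 / 100) G ∩ uset w K (1 / 100) H ⊆ uset w K (1 / 100) G)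
    linarith
  have hpow : (1 - wt w (uset w K (1 / 100) G ∩ uset w K (1 / 100) H)
      / ((2 + 2 * (1 / 100)) * K)) ^ 7 ≤ (1 - 89 / 606 : ℝ) ^ 7 :=
    pow_le_pow_left₀ (by linarith) (by linarith) 7
  have hnum : (1 - 89 / 606 : ℝ) ^ 7 ≤ 1 / 3 := by norm_num
  linarith

/-- The protocol with an arbitrary numbering of the messages. -/
theorem exists_protocol (w : Fin n → ℝ) (hw : ∀ v, 0 ≤ w v) (K : ℝ) :
    ∃ P : OneWay n ((n + 1) ^ 7 + 2), ∀ G H : SimpleGraph (Fin n),
      ((∃ C, IsCover (G ⊔ H) C ∧ wt w C ≤ K) → 2 / 3 ≤ P.accept G H) ∧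
      ((∀ C, IsCover (G ⊔ H) C → (2 - 1 / 100) * K < wt w C) → P.accept G H ≤ 1 / 3) := by
  classical
  have hcard : Fintype.card (Msg 7 (Option (Fin n))) = (n + 1) ^ 7 + 2 := by
    simp [Msg, Fintype.card_option, Fintype.card_fin]
  let e : Msg 7 (Option (Fin n)) ≃ Fin ((n + 1) ^ 7 + 2) := Fintype.equivFinOfCardEq hcard
  let P : OneWay n ((n + 1) ^ 7 + 2) :=
    { prob := fun G i => mprob w K G (e.symm i)
      nonneg := fun G i => mprob_nonneg hw K G _
      sum_one := fun G => by
        rw [Equiv.sum_comp e.symm (fun m => mprob w K G m)]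
        exact mprob_sum w K G
      acc := fun i H => macc w K (e.symm i) H }
  have hP : ∀ G H, P.accept G H = maccept w K G H := by
    intro G H
    unfold OneWay.accept maccept
    exact Equiv.sum_comp e.symm (fun m => if macc w K m H then mprob w K G m else 0)
  refine ⟨P, fun G H => ⟨fun h => ?_, fun h => ?_⟩⟩
  · rw [hP]; exact macc_complete w hw K G H h
  · rw [hP]; exact macc_sound w hw K G H h

end N598.TP
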