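import Mathlib
import Pool.Agent.N598.TP.Proto

/-! # The one-way protocol with public coins -/

namespace N598.TP

open Finset

variable {n : ℕ}

/-- The first entry of `x` which belongs to `A`. -/
def first (A : Finset (Fin n)) : (T : ℕ) → (Fin T → Fin n) → Option (Fin n)
  | 0, _ => none
  | T + 1, x => if x 0 ∈ A then some (x 0) else first A T (Fin.tail x)

lemma first_mem (A : Finset (Fin n)) : ∀ (T : ℕ) (x : Fin T → Fin n) (v : Fin n),
    first A T x = some v → v ∈ A := by
  intro T
  induction T with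
  | zero => intro x v h; simp [first] at h
  | succ T ih =>
    intro x v h
    unfold first at h
    split at h
    · rename_i h'
      rw [Option.some.injEq] at h
      exact h ▸ h'
    · exact ih _ _ h

lemma first_cons (A : Finset (Fin n)) (T : ℕ) (v : Fin n) (x : Fin T → Fin n) :
    first A (T + 1) (Fin.cons v x : Fin (T + 1) → Fin n)
      = if v ∈ A then some v else first A T x := by
  change (if (Fin.cons v x : Fin (T + 1) → Fin n) 0 ∈ A then
    some ((Fin.cons v x : Fin (T + 1) → Fin n) 0) else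
    first A T (Fin.tail (Fin.cons v x : Fin (T + 1) → Fin n))) = _
  rw [Fin.cons_zero, Fin.tail_cons]

/-- Probability that the first entry in `A` is the first entry in `B`. -/
noncomputable def coll (μ : Fin n → ℝ) (A B : Finset (Fin n)) (T : ℕ) : ℝ :=
  ∑ x : Fin T → Fin n, if first A T x = first B T x then ∏ i, μ (x i) else 0

lemma coll_succ (μ : Fin n → ℝ) (hμ : ∑ v, μ v = 1) (A B : Finset (Fin n)) (T : ℕ) :
    coll μ A B (T + 1) = (∑ v, if v ∈ A ∩ B then μ v else 0)
      + (∑ v, if v ∈ A ∪ B then 0 else μ v) * coll μ A B T := by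
  have htot : ∑ x : Fin T → Fin n, ∏ i, μ (x i) = 1 := by
    rw [← Fintype.sum_pow, hμ, one_pow]
  unfold coll
  rw [← (Fin.consEquiv (fun _ : Fin (T + 1) => Fin n)).sum_comp, Fintype.sum_prod_type,
    Finset.sum_mul, ← Finset.sum_add_distrib]
  refine Finset.sum_congr rfl (fun v _ => ?_)
  have h1 : ∀ x : Fin T → Fin n,
      (if first A (T + 1) (Fin.consEquiv (fun _ : Fin (T + 1) => Fin n) (v, x))
          = first B (T + 1) (Fin.consEquiv (fun _ : Fin (T + 1) => Fin n) (v, x))
        then ∏ i, μ (Fin.consEquiv (fun _ : Fin (T + 1) => Fin n) (v, x) i) else 0)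
      = if (if v ∈ A then some v else first A T x) = (if v ∈ B then some v else first B T x)
        then μ v * ∏ i, μ (x i) else 0 := by
    intro x
    have e : (Fin.consEquiv (fun _ : Fin (T + 1) => Fin n) (v, x) : Fin (T + 1) → Fin n)
        = Fin.cons v x := rfl
    rw [e, first_cons, first_cons, Fin.prod_univ_succ]
    simp only [Fin.cons_zero, Fin.cons_succ]
  rw [Finset.sum_congr rfl (fun x _ => h1 x)]
  by_cases hA : v ∈ A
  · by_cases hB : v ∈ B
    · have hi : v ∈ A ∩ B := mem_inter.2 ⟨hA, hB⟩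
      have hu : v ∈ A ∪ B := mem_union_left _ hA
      simp only [hA, hB, if_true, hi, hu]
      rw [← Finset.mul_sum, htot]
      ring
    · have hi : v ∉ A ∩ B := fun h => hB (mem_inter.1 h).2
      have hu : v ∈ A ∪ B := mem_union_left _ hA
      have : ∀ x, ¬ (some v = first B T x) := fun x h => hB (first_mem B T x v h.symm)
      simp only [hA, hB, if_true, if_false, hi, hu, this]
      simp
  · by_cases hB : v ∈ B
    · have hi : v ∉ A ∩ B := fun h => hA (mem_inter.1 h).1
      have hu : v ∈ A ∪ B := mem_union_right _ hB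
      have : ∀ x, ¬ (first A T x = some v) := fun x h => hA (first_mem A T x v h)
      simp only [hA, hB, if_true, if_false, hi, hu, this]
      simp
    · have hi : v ∉ A ∩ B := fun h => hA (mem_inter.1 h).1
      have hu : v ∉ A ∪ B := by
        rw [mem_union, not_or]; exact ⟨hA, hB⟩
      simp only [hA, hB, if_false, hi, hu, zero_add]
      rw [Finset.mul_sum]
      refine Finset.sum_congr rfl (fun x _ => ?_)
      split <;> simp

/-- A closed form. -/
lemma coll_eq (μ : Fin n → ℝ) (hμ : ∑ v, μ v = 1) (A B : Finset (Fin n)) (a u : ℝ)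
    (ha : (∑ v, if v ∈ A ∩ B then μ v else 0) = a)
    (hu : (∑ v, if v ∈ A ∪ B then 0 else μ v) = 1 - u) (hu0 : 0 < u) (T : ℕ) :
    coll μ A B T = a / u + (1 - a / u) * (1 - u) ^ T := by
  induction T with
  | zero =>
    unfold coll
    have : ∀ x : Fin 0 → Fin n, first A 0 x = first B 0 x := fun x => rfl
    simp [this]
  | succ T ih =>
    rw [coll_succ μ hμ, ha, hu, ih, pow_succ]
    field_simp
    ring

/-- Uniform random labels. -/
lemma label_count {τ : Type} [Fintype τ] [DecidableEq τ] (L : ℕ) (a b : τ) (hab : a ≠ b) :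
    (univ.filter (fun g : τ → Fin L => g a = g b)).card * L ≤ L ^ Fintype.card τ := by
  have h1 : univ.filter (fun g : τ → Fin L => g a = g b)
      ⊆ univ.biUnion (fun c : Fin L => Fintype.piFinset
          (fun x : τ => if x = a ∨ x = b then ({c} : Finset (Fin L)) else univ)) := by
    intro g hg
    rw [mem_biUnion]
    refine ⟨g a, mem_univ _, ?_⟩
    rw [Fintype.mem_piFinset]
    intro x
    by_cases hx : x = a ∨ x = b
    · rw [if_pos hx, mem_singleton]
      rcases hx with rfl | rfl
      · rfl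
      · exact (mem_filter.1 hg).2.symm
    · rw [if_neg hx]
      exact mem_univ _
  have h2 := (Finset.card_le_card h1).trans Finset.card_biUnion_le
  have hab2 : ({a, b} : Finset τ).card = 2 := Finset.card_pair hab
  have hcard2 : 2 ≤ Fintype.card τ := by
    rw [← hab2]; exact Finset.card_le_univ _
  have h3 : ∀ c : Fin L, (Fintype.piFinset
      (fun x : τ => if x = a ∨ x = b then ({c} : Finset (Fin L)) else univ)).card
        = L ^ (Fintype.card τ - 2) := by
    intro c
    rw [Fintype.card_piFinset]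
    have e1 : ∀ x : τ, (if x = a ∨ x = b then ({c} : Finset (Fin L)) else univ).card
        = if x ∈ (univ \ {a, b} : Finset τ) then L else 1 := by
      intro x
      by_cases hx : x = a ∨ x = b
      · simp [hx]
      · simp [hx]
    rw [Finset.prod_congr rfl (fun x _ => e1 x), ← Finset.prod_filter, Finset.prod_const]
    congr 1
    have e2 : (univ.filter (fun x => x ∈ (univ \ {a, b} : Finset τ))) = univ \ {a, b} := by
      ext x; simp
    rw [e2, Finset.card_sdiff_of_subset (Finset.subset_univ _), hab2, Finset.card_univ]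
  simp only [h3, Finset.sum_const, Finset.card_univ, Fintype.card_fin, smul_eq_mul] at h2
  calc _ ≤ (L * L ^ (Fintype.card τ - 2)) * L := Nat.mul_le_mul_right _ h2
    _ = L ^ (Fintype.card τ - 2 + 2) := by rw [pow_add]; ring
    _ = L ^ Fintype.card τ := by rw [Nat.sub_add_cancel hcard2]

/-- A random labelling of the sets of vertices. -/
structure HashFam (n L : ℕ) where
  Coin : Type
  fin : Fintype Coin
  prob : Coin → ℝ
  nonneg : ∀ ω, 0 ≤ prob ω
  sum_one : ∑ ω, prob ω = 1
  lab : Coin → Finset (Fin n) → Fin L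

attribute [instance] HashFam.fin

/-- Probability that `A` and `B` have the same label. -/
noncomputable def HashFam.same {L : ℕ} (F : HashFam n L) (A B : Finset (Fin n)) : ℝ :=
  ∑ ω, if F.lab ω A = F.lab ω B then F.prob ω else 0

lemma HashFam.same_le_one {L : ℕ} (F : HashFam n L) (A B : Finset (Fin n)) :
    F.same A B ≤ 1 := by
  rw [← F.sum_one]
  refine Finset.sum_le_sum (fun ω _ => ?_)
  split
  · exact le_refl _
  · exact F.nonneg ω

/-- The random labelling given by the first element among `T` samples. -/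
noncomputable def mkFam (μ : Fin n → ℝ) (h0 : ∀ v, 0 ≤ μ v) (h1 : ∑ v, μ v = 1) (T L : ℕ)
    (hL : 1 ≤ L) : HashFam n L where
  Coin := (Fin T → Fin n) × (Option (Fin n) → Fin L)
  fin := inferInstance
  prob := fun ω => (∏ i, μ (ω.1 i)) * (1 / (L : ℝ) ^ (n + 1))
  nonneg := fun ω => mul_nonneg (Finset.prod_nonneg (fun i _ => h0 _)) (by positivity)
  sum_one := by
    have hL' : (0 : ℝ) < L := by exact_mod_cast hL
    rw [Fintype.sum_prod_type]
    simp only [Finset.sum_const, Finset.card_univ, Fintype.card_fun, Fintype.card_option,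
      Fintype.card_fin, nsmul_eq_mul]
    rw [← Finset.mul_sum, ← Finset.sum_mul, ← Fintype.sum_pow, h1]
    push_cast
    field_simp
    simp
  lab := fun ω A => ω.2 (first A T ω.1)

lemma mkFam_same (μ : Fin n → ℝ) (h0 : ∀ v, 0 ≤ μ v) (h1 : ∑ v, μ v = 1) (T L : ℕ)
    (hL : 1 ≤ L) (A B : Finset (Fin n)) :
    coll μ A B T ≤ (mkFam μ h0 h1 T L hL).same A B ∧
      (mkFam μ h0 h1 T L hL).same A B ≤ coll μ A B T + 1 / L := by
  have hL' : (0 : ℝ) < L := by exact_mod_cast hL
  have hsame : (mkFam μ h0 h1 T L hL).same A B = ∑ x : Fin T → Fin n, (∏ i, μ (x i)) *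
      ((univ.filter (fun g : Option (Fin n) → Fin L => g (first A T x) = g (first B T x))).card
        / (L : ℝ) ^ (n + 1)) := by
    unfold HashFam.same
    change ∑ ω : (Fin T → Fin n) × (Option (Fin n) → Fin L),
      (if ω.2 (first A T ω.1) = ω.2 (first B T ω.1) then
        (∏ i, μ (ω.1 i)) * (1 / (L : ℝ) ^ (n + 1)) else 0) = _
    rw [Fintype.sum_prod_type]
    refine Finset.sum_congr rfl (fun x _ => ?_)
    simp only
    rw [← Finset.sum_filter, Finset.sum_const, nsmul_eq_mul]
    ring
  have htot : ∑ x : Fin T → Fin n, ∏ i, μ (x i) = 1 := by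
    rw [← Fintype.sum_pow, h1, one_pow]
  have hall : ((univ : Finset (Option (Fin n) → Fin L)).card : ℝ) = (L : ℝ) ^ (n + 1) := by
    rw [Finset.card_univ, Fintype.card_fun, Fintype.card_option, Fintype.card_fin,
      Fintype.card_fin]
    push_cast
    rfl
  have hprod : ∀ x : Fin T → Fin n, 0 ≤ ∏ i, μ (x i) := fun x =>
    Finset.prod_nonneg (fun i _ => h0 _)
  rw [hsame]
  constructor
  · unfold coll
    refine Finset.sum_le_sum (fun x _ => ?_)
    split
    · rename_i h
      rw [h]
      simp only [Finset.filter_true]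
      rw [hall, div_self (by positivity), mul_one]
    · exact mul_nonneg (hprod x) (by positivity)
  · have : coll μ A B T + 1 / L = ∑ x : Fin T → Fin n,
        ((if first A T x = first B T x then ∏ i, μ (x i) else 0)
          + (∏ i, μ (x i)) * (1 / L)) := by
      rw [Finset.sum_add_distrib, ← Finset.sum_mul, htot, one_mul]
      rfl
    rw [this]
    refine Finset.sum_le_sum (fun x _ => ?_)
    by_cases h : first A T x = first B T x
    · rw [if_pos h, h]
      simp only [Finset.filter_true]
      rw [hall, div_self (by positivity), mul_one]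
      have := mul_nonneg (hprod x) (by positivity : (0 : ℝ) ≤ 1 / L)
      linarith
    · rw [if_neg h, zero_add]
      refine mul_le_mul_of_nonneg_left ?_ (hprod x)
      rw [div_le_div_iff₀ (by positivity) hL', one_mul]
      have h3 := label_count L _ _ h
      rw [Fintype.card_option, Fintype.card_fin] at h3
      exact_mod_cast h3

/-- The labelling used by the protocol. -/
lemma exists_fam (w : Fin n → ℝ) (hw : ∀ v, 0 ≤ w v) (s ε : ℝ) (hs : 0 < s) (hε : 0 < ε)
    (L : ℕ) (hL : 1 ≤ L) :
    ∃ F : HashFam n L, ∀ A B : Finset (Fin n), s ≤ wt w (A ∪ B) →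
      wt w (A ∩ B) / wt w (A ∪ B) ≤ F.same A B ∧
        F.same A B ≤ wt w (A ∩ B) / wt w (A ∪ B) + ε + 1 / L := by
  by_cases hW : wt w univ < s
  · refine ⟨⟨Unit, inferInstance, fun _ => 1, fun _ => by norm_num, by simp,
      fun _ _ => ⟨0, hL⟩⟩, fun A B hAB => ?_⟩
    have := wt_mono hw (Finset.subset_univ (A ∪ B))
    linarith
  push Not at hW
  have hWpos : 0 < wt w univ := lt_of_lt_of_le hs hW
  set W := wt w univ with hWdef
  let μ : Fin n → ℝ := fun v => w v / W
  have h0 : ∀ v, 0 ≤ μ v := fun v => div_nonneg (hw v) hWpos.le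
  have h1 : ∑ v, μ v = 1 := by
    change ∑ v, w v / W = 1
    rw [← Finset.sum_div]
    exact div_self hWpos.ne'
  obtain ⟨T, hT⟩ := exists_pow_lt_of_lt_one hε (y := 1 - s / W) (by
    have : 0 < s / W := div_pos hs hWpos
    linarith)
  refine ⟨mkFam μ h0 h1 T L hL, fun A B hAB => ?_⟩
  have hmem : ∀ S : Finset (Fin n), (∑ v, if v ∈ S then μ v else 0) = wt w S / W := by
    intro S
    rw [Finset.sum_ite_mem, Finset.univ_inter]
    unfold wt
    rw [Finset.sum_div]
  have ha := hmem (A ∩ B)
  have hu : (∑ v, if v ∈ A ∪ B then 0 else μ v) = 1 - wt w (A ∪ B) / W := by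
    have e1 : ∑ v, μ v = (∑ v, if v ∈ A ∪ B then μ v else 0)
        + (∑ v, if v ∈ A ∪ B then 0 else μ v) := by
      rw [← Finset.sum_add_distrib]
      refine Finset.sum_congr rfl (fun v _ => ?_)
      split <;> simp
    rw [hmem, h1] at e1
    linarith
  have hupos : 0 < wt w (A ∪ B) := lt_of_lt_of_le hs hAB
  have hcoll := coll_eq μ h1 A B _ _ ha hu (div_pos hupos hWpos) T
  have hJ : wt w (A ∩ B) / W / (wt w (A ∪ B) / W) = wt w (A ∩ B) / wt w (A ∪ B) := by
    field_simp
  rw [hJ] at hcoll
  have hJ0 : 0 ≤ wt w (A ∩ B) / wt w (A ∪ B) := div_nonneg (wt_nonneg hw _) hupos.le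
  have hJ1 : wt w (A ∩ B) / wt w (A ∪ B) ≤ 1 := by
    rw [div_le_one hupos]
    exact wt_mono hw (fun x hx => mem_union_left _ (mem_inter.1 hx).1)
  have hr0 : 0 ≤ 1 - wt w (A ∪ B) / W := by
    have : wt w (A ∪ B) / W ≤ 1 := by
      rw [div_le_one hWpos]
      exact wt_mono hw (Finset.subset_univ _)
    linarith
  have hr1 : 1 - wt w (A ∪ B) / W ≤ 1 - s / W := by
    have : s / W ≤ wt w (A ∪ B) / W := div_le_div_of_nonneg_right hAB hWpos.le
    linarith
  have hrT : (1 - wt w (A ∪ B) / W) ^ T ≤ ε := (pow_le_pow_left₀ hr0 hr1 T).trans hT.le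
  have hrT0 : 0 ≤ (1 - wt w (A ∪ B) / W) ^ T := pow_nonneg hr0 T
  obtain ⟨h2, h3⟩ := mkFam_same μ h0 h1 T L hL A B
  constructor
  · refine le_trans ?_ h2
    rw [hcoll]
    have := mul_nonneg (by linarith : 0 ≤ 1 - wt w (A ∩ B) / wt w (A ∪ B)) hrT0
    linarith
  · refine h3.trans ?_
    rw [hcoll]
    have : (1 - wt w (A ∩ B) / wt w (A ∪ B)) * (1 - wt w (A ∪ B) / W) ^ T ≤ 1 * ε :=
      mul_le_mul (by linarith) hrT hrT0 (by norm_num)
    linarith

end N598.TP
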