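import Mathlib
import Pool.Agent.N598.TP.Defs

/-! # Lower bounds for protocols with one-sided error -/

namespace N598.TP

open Finset

/-- Number of places in which two functions agree. -/
def agr {k q : ℕ} (f g : Fin k → Fin q) : ℕ := (univ.filter (fun i => f i = g i)).card

lemma agr_comm {k q : ℕ} (f g : Fin k → Fin q) : agr f g = agr g f := by
  unfold agr
  congr 1
  ext i
  simp [eq_comm]

lemma agr_le {k q : ℕ} (f g : Fin k → Fin q) : agr f g ≤ k := by
  unfold agr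
  exact (Finset.card_le_univ _).trans (by simp)

lemma agr_self {k q : ℕ} (f : Fin k → Fin q) : agr f f = k := by
  simp [agr]

section graphs

variable {n k q : ℕ} (ι : Fin 3 × Fin k × Fin q ↪ Fin n)

/-- The graph with the edges between `ι (0, i, f i)` and `ι (t, i, f i)`. -/
def mat (t : Fin 3) (ht : t ≠ 0) (f : Fin k → Fin q) : SimpleGraph (Fin n) where
  Adj x y := ∃ i, (x = ι (0, i, f i) ∧ y = ι (t, i, f i)) ∨ (y = ι (0, i, f i) ∧ x = ι (t, i, f i))
  symm := ⟨by
    rintro x y ⟨i, h⟩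
    exact ⟨i, h.symm⟩⟩
  loopless := ⟨by
    rintro x ⟨i, ⟨h1, h2⟩ | ⟨h1, h2⟩⟩ <;>
    · have h3 := ι.injective (h1.symm.trans h2)
      simp only [Prod.mk.injEq] at h3
      exact ht h3.1.symm⟩

lemma mat_match (t : Fin 3) (ht : t ≠ 0) (f : Fin k → Fin q) : IsMatch (mat ι t ht f) := by
  rintro u v v' ⟨i, h⟩ ⟨j, h'⟩
  rcases h with ⟨h1, h2⟩ | ⟨h1, h2⟩ <;> rcases h' with ⟨h3, h4⟩ | ⟨h3, h4⟩
  · have h5 := ι.injective (h1.symm.trans h3)
    simp only [Prod.mk.injEq] at h5
    obtain ⟨-, rfl, -⟩ := h5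
    rw [h2, h4]
  · have h5 := ι.injective (h1.symm.trans h4)
    simp only [Prod.mk.injEq] at h5
    exact (ht h5.1.symm).elim
  · have h5 := ι.injective (h2.symm.trans h3)
    simp only [Prod.mk.injEq] at h5
    exact (ht h5.1).elim
  · have h5 := ι.injective (h2.symm.trans h4)
    simp only [Prod.mk.injEq] at h5
    obtain ⟨-, rfl, -⟩ := h5
    rw [h1, h3]

lemma mat_lower (t t' : Fin 3) (ht : t ≠ 0) (ht' : t' ≠ 0) (f g : Fin k → Fin q)
    (C : Finset (Fin n)) (hC : IsCover (mat ι t ht f ⊔ mat ι t' ht' g) C) :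
    2 * k ≤ C.card + agr f g := by
  classical
  let P₁ : Finset (Fin k × Fin q) := univ.image (fun i => (i, f i))
  let P₂ : Finset (Fin k × Fin q) := (univ.filter (fun i => ¬ f i = g i)).image (fun i => (i, g i))
  have hc₁ : P₁.card = k := by
    rw [Finset.card_image_of_injective _ (fun i j h => (Prod.mk.inj h).1)]
    simp
  have hc₂ : P₂.card + agr f g = k := by
    rw [Finset.card_image_of_injective _ (fun i j h => (Prod.mk.inj h).1)]
    have := Finset.card_filter_add_card_filter_not (s := (univ : Finset (Fin k)))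
      (fun i => f i = g i)
    simp only [Finset.card_univ, Fintype.card_fin] at this
    unfold agr
    omega
  have hdis : Disjoint P₁ P₂ := by
    rw [Finset.disjoint_left]
    intro p h1 h2
    obtain ⟨i, -, rfl⟩ := mem_image.1 h1
    obtain ⟨j, hj, hij⟩ := mem_image.1 h2
    simp only [Prod.mk.injEq] at hij
    obtain ⟨rfl, h3⟩ := hij
    exact (mem_filter.1 hj).2 h3.symm
  have hex : ∀ p ∈ P₁ ∪ P₂, ∃ x, x ∈ C ∧ ∃ c : Fin 3, x = ι (c, p.1, p.2) := by
    intro p hp
    rcases mem_union.1 hp with h | h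
    · obtain ⟨i, -, rfl⟩ := mem_image.1 h
      have hadj : (mat ι t ht f ⊔ mat ι t' ht' g).Adj (ι (0, i, f i)) (ι (t, i, f i)) := by
        rw [SimpleGraph.sup_adj]
        exact Or.inl ⟨i, Or.inl ⟨rfl, rfl⟩⟩
      rcases hC _ _ hadj with h | h
      · exact ⟨_, h, 0, rfl⟩
      · exact ⟨_, h, t, rfl⟩
    · obtain ⟨i, -, rfl⟩ := mem_image.1 h
      have hadj : (mat ι t ht f ⊔ mat ι t' ht' g).Adj (ι (0, i, g i)) (ι (t', i, g i)) := by
        rw [SimpleGraph.sup_adj]
        exact Or.inr ⟨i, Or.inl ⟨rfl, rfl⟩⟩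
      rcases hC _ _ hadj with h | h
      · exact ⟨_, h, 0, rfl⟩
      · exact ⟨_, h, t', rfl⟩
  have hle : (P₁ ∪ P₂).card ≤ C.card := by
    rcases (P₁ ∪ P₂).eq_empty_or_nonempty with hemp | ⟨p₀, hp₀⟩
    · rw [hemp]; simp
    have : Nonempty (Fin n) := ⟨(hex p₀ hp₀).choose⟩
    choose! φ hφ using hex
    refine Finset.card_le_card_of_injOn φ (fun p hp => (hφ p hp).1) ?_
    intro p hp p' hp' heq
    obtain ⟨-, c, hc⟩ := hφ p hp
    obtain ⟨-, c', hc'⟩ := hφ p' hp'
    rw [hc, hc'] at heq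
    have := ι.injective heq
    simp only [Prod.mk.injEq] at this
    exact Prod.ext this.2.1 this.2.2
  rw [Finset.card_union_of_disjoint hdis, hc₁] at hle
  omega

lemma mat_upper (t t' : Fin 3) (ht : t ≠ 0) (ht' : t' ≠ 0) (f g : Fin k → Fin q) :
    ∃ C, IsCover (mat ι t ht f ⊔ mat ι t' ht' g) C ∧ C.card + agr f g ≤ 2 * k := by
  classical
  refine ⟨univ.image (fun i => ι (0, i, f i)) ∪
    (univ.filter (fun i => ¬ f i = g i)).image (fun i => ι (0, i, g i)), ?_, ?_⟩
  · have hf : ∀ i, ι (0, i, f i) ∈ univ.image (fun i => ι (0, i, f i)) ∪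
        (univ.filter (fun i => ¬ f i = g i)).image (fun i => ι (0, i, g i)) := fun i =>
      mem_union_left _ (mem_image.2 ⟨i, mem_univ _, rfl⟩)
    have hg : ∀ i, ι (0, i, g i) ∈ univ.image (fun i => ι (0, i, f i)) ∪
        (univ.filter (fun i => ¬ f i = g i)).image (fun i => ι (0, i, g i)) := by
      intro i
      by_cases h : f i = g i
      · rw [← h]; exact hf i
      · exact mem_union_right _ (mem_image.2 ⟨i, mem_filter.2 ⟨mem_univ _, h⟩, rfl⟩)
    intro u v huv
    rw [SimpleGraph.sup_adj] at huv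
    rcases huv with ⟨i, ⟨h, -⟩ | ⟨h, -⟩⟩ | ⟨i, ⟨h, -⟩ | ⟨h, -⟩⟩
    · exact Or.inl (h ▸ hf i)
    · exact Or.inr (h ▸ hf i)
    · exact Or.inl (h ▸ hg i)
    · exact Or.inr (h ▸ hg i)
  · have h1 : (univ.image (fun i => ι (0, i, f i))).card ≤ k :=
      Finset.card_image_le.trans (by simp)
    have h2 : ((univ.filter (fun i => ¬ f i = g i)).image (fun i => ι (0, i, g i))).card
        ≤ (univ.filter (fun i => ¬ f i = g i)).card := Finset.card_image_le
    have h3 := Finset.card_filter_add_card_filter_not (s := (univ : Finset (Fin k)))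
      (fun i => f i = g i)
    simp only [Finset.card_univ, Fintype.card_fin] at h3
    have h4 := Finset.card_union_le (univ.image (fun i => ι (0, i, f i)))
      ((univ.filter (fun i => ¬ f i = g i)).image (fun i => ι (0, i, g i)))
    unfold agr
    omega

/-- The pairs which may be edges of the first player's graph. -/
def pairs : Set (Sym2 (Fin n)) := {s | ∃ i a, s = s(ι (0, i, a), ι (1, i, a))}

lemma one_ne : (1 : Fin 3) ≠ 0 := by decide
lemma two_ne : (2 : Fin 3) ≠ 0 := by decide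

lemma mat_valid (f g : Fin k → Fin q) :
    Valid (pairs ι) (mat ι 1 one_ne f) (mat ι 2 two_ne g) := by
  refine ⟨mat_match ι 1 one_ne f, mat_match ι 2 two_ne g, ?_, ?_⟩
  · rintro u v ⟨i, ⟨rfl, rfl⟩ | ⟨rfl, rfl⟩⟩
    · exact ⟨i, f i, rfl⟩
    · exact ⟨i, f i, Sym2.eq_swap⟩
  · rintro u v ⟨i, ⟨rfl, rfl⟩ | ⟨rfl, rfl⟩⟩ ⟨j, a, h⟩ <;>
    · rw [Sym2.eq_iff] at h
      rcases h with ⟨h1, h2⟩ | ⟨h1, h2⟩ <;>
      · have h3 := ι.injective h1
        have h4 := ι.injective h2
        simp only [Prod.mk.injEq] at h3 h4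
        first
        | exact absurd h4.1 (by decide)
        | exact absurd h3.1 (by decide)

end graphs

/-! ### Counting -/

/-- Averaging over the coins. -/
lemma cover_count {V Ω : Type} [Fintype V] [Nonempty V] [Fintype Ω] [Nonempty Ω] (M : ℕ)
    (D : Ω → Fin M → Finset V) (R : V → Ω → Prop) [∀ v, DecidablePred (R v)] (β θ : ℝ)
    (hβ : 0 ≤ β) (hθ : 0 ≤ θ)
    (hR : ∀ v ω, R v ω → ∃ i, v ∈ D ω i)
    (hD : ∀ ω i, ((D ω i).card : ℝ) ^ 2 * β ≤ (Fintype.card V : ℝ) ^ 2)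
    (hcov : ∀ v, θ * Fintype.card Ω ≤ ((univ.filter (R v)).card : ℝ)) :
    θ ^ 2 * β ≤ (M : ℝ) ^ 2 := by
  classical
  set s := Real.sqrt β with hs
  have hs0 : 0 ≤ s := Real.sqrt_nonneg β
  have hs2 : s ^ 2 = β := Real.sq_sqrt hβ
  have hVpos : (0 : ℝ) < Fintype.card V := by exact_mod_cast Fintype.card_pos
  have hΩpos : (0 : ℝ) < Fintype.card Ω := by exact_mod_cast Fintype.card_pos
  have hD' : ∀ ω i, ((D ω i).card : ℝ) * s ≤ Fintype.card V := by
    intro ω i
    refine le_of_sq_le_sq ?_ hVpos.le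
    rw [mul_pow, hs2]
    exact hD ω i
  have h1 : θ * Fintype.card Ω * Fintype.card V
      ≤ ∑ ω : Ω, ∑ i : Fin M, ((D ω i).card : ℝ) := by
    calc θ * Fintype.card Ω * Fintype.card V = ∑ _v : V, θ * Fintype.card Ω := by
          rw [Finset.sum_const, Finset.card_univ, nsmul_eq_mul]; ring
      _ ≤ ∑ v : V, ((univ.filter (R v)).card : ℝ) := Finset.sum_le_sum (fun v _ => hcov v)
      _ = ∑ v : V, ∑ ω : Ω, (if R v ω then (1 : ℝ) else 0) := by
          refine Finset.sum_congr rfl (fun v _ => ?_)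
          rw [Finset.sum_boole]
      _ = ∑ ω : Ω, ∑ v : V, (if R v ω then (1 : ℝ) else 0) := Finset.sum_comm
      _ ≤ ∑ ω : Ω, ∑ v : V, ∑ i : Fin M, (if v ∈ D ω i then (1 : ℝ) else 0) := by
          refine Finset.sum_le_sum (fun ω _ => Finset.sum_le_sum (fun v _ => ?_))
          by_cases h : R v ω
          · obtain ⟨i, hi⟩ := hR v ω h
            rw [if_pos h]
            have h5 : (if v ∈ D ω i then (1 : ℝ) else 0)
                ≤ ∑ j : Fin M, (if v ∈ D ω j then (1 : ℝ) else 0) :=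
              Finset.single_le_sum (f := fun i => if v ∈ D ω i then (1 : ℝ) else 0)
                (fun j _ => by split <;> norm_num) (Finset.mem_univ i)
            rw [if_pos hi] at h5
            exact h5
          · rw [if_neg h]
            exact Finset.sum_nonneg (fun j _ => by split <;> norm_num)
      _ = ∑ ω : Ω, ∑ i : Fin M, ((D ω i).card : ℝ) := by
          refine Finset.sum_congr rfl (fun ω _ => ?_)
          rw [Finset.sum_comm]
          refine Finset.sum_congr rfl (fun i _ => ?_)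
          rw [Finset.sum_boole]
          congr 2
          ext v
          simp
  have h2 : (∑ ω : Ω, ∑ i : Fin M, ((D ω i).card : ℝ)) * s
      ≤ Fintype.card Ω * (M * Fintype.card V) := by
    rw [Finset.sum_mul]
    calc ∑ ω : Ω, (∑ i : Fin M, ((D ω i).card : ℝ)) * s
        ≤ ∑ _ω : Ω, ((M : ℝ) * Fintype.card V) := by
          refine Finset.sum_le_sum (fun ω _ => ?_)
          rw [Finset.sum_mul]
          calc ∑ i : Fin M, ((D ω i).card : ℝ) * s ≤ ∑ _i : Fin M, (Fintype.card V : ℝ) :=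
                Finset.sum_le_sum (fun i _ => hD' ω i)
            _ = (M : ℝ) * Fintype.card V := by
                rw [Finset.sum_const, Finset.card_univ, Fintype.card_fin, nsmul_eq_mul]
      _ = Fintype.card Ω * (M * Fintype.card V) := by
          rw [Finset.sum_const, Finset.card_univ, nsmul_eq_mul]
  have h3 : θ * s ≤ M := by
    have h4 : (θ * s) * (Fintype.card Ω * Fintype.card V)
        ≤ (M : ℝ) * (Fintype.card Ω * Fintype.card V) := by
      calc (θ * s) * (Fintype.card Ω * Fintype.card V)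
          = (θ * Fintype.card Ω * Fintype.card V) * s := by ring
        _ ≤ (∑ ω : Ω, ∑ i : Fin M, ((D ω i).card : ℝ)) * s := mul_le_mul_of_nonneg_right h1 hs0
        _ ≤ Fintype.card Ω * (M * Fintype.card V) := h2
        _ = (M : ℝ) * (Fintype.card Ω * Fintype.card V) := by ring
    exact le_of_mul_le_mul_right h4 (by positivity)
  calc θ ^ 2 * β = (θ * s) ^ 2 := by rw [mul_pow, hs2]
    _ ≤ (M : ℝ) ^ 2 := pow_le_pow_left₀ (mul_nonneg hθ hs0) h3 2

/-! ### Rectangles in which all pairs have many agreements -/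

lemma mgf {k q : ℕ} (x : Fin k → Fin q) :
    ∑ y : Fin k → Fin q, 4 ^ agr x y = (q + 3) ^ k := by
  have e1 : ∑ y : Fin k → Fin q, 4 ^ agr x y
      = ∑ y ∈ Fintype.piFinset (fun _ : Fin k => (univ : Finset (Fin q))),
          ∏ i, (if x i = y i then 4 else 1) := by
    rw [Fintype.piFinset_univ]
    refine Finset.sum_congr rfl (fun y _ => ?_)
    unfold agr
    rw [← Finset.prod_filter, Finset.prod_const]
  rw [e1, ← Finset.prod_univ_sum (fun _ => univ) (fun i a => if x i = a then 4 else 1)]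
  have e2 : ∀ i : Fin k, ∑ a : Fin q, (if x i = a then 4 else 1) = q + 3 := by
    intro i
    calc ∑ a : Fin q, (if x i = a then 4 else 1)
        = ∑ a : Fin q, ((if x i = a then 3 else 0) + 1) := by
          refine Finset.sum_congr rfl (fun a _ => ?_)
          split <;> rfl
      _ = q + 3 := by
          rw [Finset.sum_add_distrib, Finset.sum_ite_eq univ (x i) (fun _ => 3)]
          simp
          ring
  simp only [e2, Finset.prod_const, Finset.card_univ, Fintype.card_fin]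

lemma many_agr {k q m : ℕ} (X Y : Finset (Fin k → Fin q))
    (h : ∀ x ∈ X, ∀ y ∈ Y, m ≤ agr x y) :
    X.card * Y.card * 4 ^ m ≤ q ^ k * (q + 3) ^ k := by
  calc X.card * Y.card * 4 ^ m = ∑ x ∈ X, ∑ y ∈ Y, 4 ^ m := by
        rw [Finset.sum_const, Finset.sum_const, smul_eq_mul, smul_eq_mul]; ring
    _ ≤ ∑ x ∈ X, ∑ y ∈ Y, 4 ^ agr x y :=
        Finset.sum_le_sum (fun x hx => Finset.sum_le_sum (fun y hy =>
          Nat.pow_le_pow_right (by norm_num) (h x hx y hy)))
    _ ≤ ∑ x : Fin k → Fin q, ∑ y : Fin k → Fin q, 4 ^ agr x y :=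
        (Finset.sum_le_sum (fun x _ => Finset.sum_le_sum_of_subset (Finset.subset_univ _))).trans
          (Finset.sum_le_sum_of_subset (Finset.subset_univ _))
    _ = q ^ k * (q + 3) ^ k := by
        simp only [mgf, Finset.sum_const, Finset.card_univ, Fintype.card_fun, Fintype.card_fin,
          smul_eq_mul]

lemma pow_nine_four (e : ℕ) (he : 1 ≤ e) : (1 + 3 / (4 * (e : ℝ))) ^ e ≤ 9 / 4 := by
  have he' : (0 : ℝ) < e := by exact_mod_cast he
  have h1 : (1 + 3 / (4 * (e : ℝ))) ^ e ≤ Real.exp (3 / 4) := by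
    calc (1 + 3 / (4 * (e : ℝ))) ^ e ≤ (Real.exp (3 / (4 * (e : ℝ)))) ^ e := by
          refine pow_le_pow_left₀ (by positivity) ?_ e
          rw [add_comm]
          exact Real.add_one_le_exp _
      _ = Real.exp (3 / 4) := by
          rw [← Real.exp_nat_mul]
          congr 1
          field_simp
  have h2 : Real.exp (3 / 4) ^ 4 ≤ (9 / 4 : ℝ) ^ 4 := by
    rw [← Real.exp_nat_mul]
    have h3 : ((4 : ℕ) : ℝ) * (3 / 4) = ((3 : ℕ) : ℝ) * 1 := by norm_num
    rw [h3, Real.exp_nat_mul]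
    calc Real.exp 1 ^ 3 ≤ (2.7182818286 : ℝ) ^ 3 :=
          pow_le_pow_left₀ (Real.exp_pos _).le Real.exp_one_lt_d9.le 3
      _ ≤ (9 / 4 : ℝ) ^ 4 := by norm_num
  exact h1.trans (le_of_pow_le_pow_left₀ (by norm_num) (by norm_num) h2)

lemma many_agr' {e m : ℕ} (he : 1 ≤ e) (X Y : Finset (Fin (e * m) → Fin (4 * e)))
    (h : ∀ x ∈ X, ∀ y ∈ Y, m ≤ agr x y) :
    (X.card : ℝ) * Y.card * (16 / 9) ^ m ≤ ((4 * e : ℕ) ^ (e * m) : ℝ) ^ 2 := by
  have he' : (0 : ℝ) < e := by exact_mod_cast he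
  have h1 := many_agr X Y h
  have h2 : (X.card : ℝ) * Y.card * 4 ^ m
      ≤ ((4 * e : ℕ) : ℝ) ^ (e * m) * (((4 * e : ℕ) : ℝ) + 3) ^ (e * m) := by exact_mod_cast h1
  have h3 : (((4 * e : ℕ) : ℝ) + 3) ^ (e * m)
      ≤ ((4 * e : ℕ) : ℝ) ^ (e * m) * (9 / 4) ^ m := by
    have h4 : ((4 * e : ℕ) : ℝ) + 3 = ((4 * e : ℕ) : ℝ) * (1 + 3 / (4 * (e : ℝ))) := by
      push_cast
      field_simp
    rw [h4, mul_pow]
    refine mul_le_mul_of_nonneg_left ?_ (by positivity)
    rw [pow_mul]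
    exact pow_le_pow_left₀ (by positivity) (pow_nine_four e he) m
  have h5 : (X.card : ℝ) * Y.card * 4 ^ m
      ≤ (((4 * e : ℕ) : ℝ) ^ (e * m)) ^ 2 * (9 / 4) ^ m := by
    calc _ ≤ _ := h2
      _ ≤ ((4 * e : ℕ) : ℝ) ^ (e * m) * (((4 * e : ℕ) : ℝ) ^ (e * m) * (9 / 4) ^ m) :=
          mul_le_mul_of_nonneg_left h3 (by positivity)
      _ = _ := by ring
  have h6 : (16 / 9 : ℝ) ^ m * (9 / 4) ^ m = 4 ^ m := by
    rw [← mul_pow]; norm_num
  have h7 : ((X.card : ℝ) * Y.card * (16 / 9) ^ m) * (9 / 4) ^ m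
      ≤ (((4 * e : ℕ) : ℝ) ^ (e * m)) ^ 2 * (9 / 4) ^ m := by
    calc ((X.card : ℝ) * Y.card * (16 / 9) ^ m) * (9 / 4) ^ m
        = (X.card : ℝ) * Y.card * ((16 / 9) ^ m * (9 / 4) ^ m) := by ring
      _ = (X.card : ℝ) * Y.card * 4 ^ m := by rw [h6]
      _ ≤ _ := h5
  exact le_of_mul_le_mul_right h7 (by positivity)

/-! ### Sets of bit strings at a large distance -/

lemma agr_cons {k q : ℕ} (a b : Fin q) (x y : Fin k → Fin q) :
    agr (Fin.cons a x : Fin (k + 1) → Fin q) (Fin.cons b y) = (if a = b then 1 else 0) + agr x y := by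
  unfold agr
  rw [Finset.card_filter, Finset.card_filter, Fin.sum_univ_succ]
  simp

lemma card_cons {k : ℕ} (A : Finset (Fin (k + 1) → Fin 2)) :
    A.card = (univ.filter (fun x : Fin k → Fin 2 => (Fin.cons 0 x : Fin (k + 1) → Fin 2) ∈ A)).card
      + (univ.filter (fun x : Fin k → Fin 2 => (Fin.cons 1 x : Fin (k + 1) → Fin 2) ∈ A)).card := by
  have h1 : A.card = ∑ x : Fin (k + 1) → Fin 2, if x ∈ A then 1 else 0 := by
    rw [← Finset.card_filter]
    congr 1
    ext x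
    simp
  rw [h1, ← (Fin.consEquiv (fun _ : Fin (k + 1) => Fin 2)).sum_comp, Fintype.sum_prod_type,
    Fin.sum_univ_two, Finset.card_filter, Finset.card_filter]
  rfl

lemma iso {z : ℝ} (hz : 1 ≤ z) : ∀ (k t : ℕ) (A B : Finset (Fin k → Fin 2)),
    (∀ a ∈ A, ∀ b ∈ B, t + agr a b ≤ k) →
    (A.card : ℝ) * B.card * z ^ t ≤ ((1 + z) ^ 2 / z) ^ k := by
  have hz0 : 0 < z := by linarith
  intro k
  induction k with
  | zero =>
    intro t A B h
    have hA : A.card ≤ 1 := (Finset.card_le_univ A).trans (by simp)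
    have hB : B.card ≤ 1 := (Finset.card_le_univ B).trans (by simp)
    rcases A.eq_empty_or_nonempty with rfl | ⟨a, ha⟩
    · simp
    rcases B.eq_empty_or_nonempty with rfl | ⟨b, hb⟩
    · simp
    have h0 := h a ha b hb
    have ht : t = 0 := by omega
    subst ht
    have hA' : (A.card : ℝ) ≤ 1 := by exact_mod_cast hA
    have hB' : (B.card : ℝ) ≤ 1 := by exact_mod_cast hB
    rw [pow_zero, pow_zero, mul_one]
    calc (A.card : ℝ) * B.card ≤ 1 * 1 :=
          mul_le_mul hA' hB' (Nat.cast_nonneg _) (by norm_num)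
      _ = 1 := by norm_num
  | succ k ih =>
    intro t A B h
    rcases t with _ | t
    · have hcube : ∀ A : Finset (Fin (k + 1) → Fin 2), (A.card : ℝ) ≤ 2 ^ (k + 1) := by
        intro A
        have : A.card ≤ 2 ^ (k + 1) := (Finset.card_le_univ A).trans (by simp)
        exact_mod_cast this
      have h4 : (4 : ℝ) ≤ (1 + z) ^ 2 / z := by
        rw [le_div_iff₀ hz0]
        nlinarith [sq_nonneg (z - 1)]
      calc (A.card : ℝ) * B.card * z ^ 0 = (A.card : ℝ) * B.card := by rw [pow_zero, mul_one]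
        _ ≤ 2 ^ (k + 1) * 2 ^ (k + 1) :=
            mul_le_mul (hcube A) (hcube B) (Nat.cast_nonneg _) (by positivity)
        _ = 4 ^ (k + 1) := by rw [← mul_pow]; norm_num
        _ ≤ ((1 + z) ^ 2 / z) ^ (k + 1) := pow_le_pow_left₀ (by norm_num) h4 _
    · set L : ℝ := ((1 + z) ^ 2 / z) ^ k with hL
      have hLpos : 0 < L := by positivity
      set A0 := univ.filter (fun x : Fin k → Fin 2 => (Fin.cons 0 x : Fin (k + 1) → Fin 2) ∈ A)
      set A1 := univ.filter (fun x : Fin k → Fin 2 => (Fin.cons 1 x : Fin (k + 1) → Fin 2) ∈ A)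
      set B0 := univ.filter (fun x : Fin k → Fin 2 => (Fin.cons 0 x : Fin (k + 1) → Fin 2) ∈ B)
      set B1 := univ.filter (fun x : Fin k → Fin 2 => (Fin.cons 1 x : Fin (k + 1) → Fin 2) ∈ B)
      have hA := card_cons A
      have hB := card_cons B
      have key : ∀ c d : Fin 2, ∀ a b : Fin k → Fin 2, (Fin.cons c a : Fin (k + 1) → Fin 2) ∈ A →
          (Fin.cons d b : Fin (k + 1) → Fin 2) ∈ B →
          t + (if c = d then 1 else 0) + agr a b ≤ k := by
        intro c d a b ha hb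
        have := h _ ha _ hb
        rw [agr_cons] at this
        omega
      have p00 : (A0.card : ℝ) * B0.card * z ^ (t + 1) ≤ L := by
        refine ih (t + 1) A0 B0 (fun a ha b hb => ?_)
        have := key 0 0 a b (mem_filter.1 ha).2 (mem_filter.1 hb).2
        simpa using this
      have p11 : (A1.card : ℝ) * B1.card * z ^ (t + 1) ≤ L := by
        refine ih (t + 1) A1 B1 (fun a ha b hb => ?_)
        have := key 1 1 a b (mem_filter.1 ha).2 (mem_filter.1 hb).2
        simpa using this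
      have p01 : (A0.card : ℝ) * B1.card * z ^ t ≤ L := by
        refine ih t A0 B1 (fun a ha b hb => ?_)
        have := key 0 1 a b (mem_filter.1 ha).2 (mem_filter.1 hb).2
        simpa using this
      have p10 : (A1.card : ℝ) * B0.card * z ^ t ≤ L := by
        refine ih t A1 B0 (fun a ha b hb => ?_)
        have := key 1 0 a b (mem_filter.1 ha).2 (mem_filter.1 hb).2
        simpa using this
      set a0 : ℝ := (A0.card : ℝ)
      set a1 : ℝ := (A1.card : ℝ)
      set b0 : ℝ := (B0.card : ℝ)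
      set b1 : ℝ := (B1.card : ℝ)
      have ha0 : 0 ≤ a0 := Nat.cast_nonneg _
      have ha1 : 0 ≤ a1 := Nat.cast_nonneg _
      have hb0 : 0 ≤ b0 := Nat.cast_nonneg _
      have hb1 : 0 ≤ b1 := Nat.cast_nonneg _
      have hzt : 0 < z ^ t := by positivity
      have hAr : (A.card : ℝ) = a0 + a1 := by
        rw [hA]; push_cast; rfl
      have hBr : (B.card : ℝ) = b0 + b1 := by
        rw [hB]; push_cast; rfl
      set u : ℝ := a0 * b1 * z ^ (t + 1) with hu
      set v : ℝ := a1 * b0 * z ^ (t + 1) with hv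
      have hu1 : u ≤ z * L := by
        calc u = z * (a0 * b1 * z ^ t) := by rw [hu, pow_succ]; ring
          _ ≤ z * L := mul_le_mul_of_nonneg_left p01 hz0.le
      have hv1 : v ≤ z * L := by
        calc v = z * (a1 * b0 * z ^ t) := by rw [hv, pow_succ]; ring
          _ ≤ z * L := mul_le_mul_of_nonneg_left p10 hz0.le
      have huv : u * v ≤ L * L := by
        calc u * v = (a0 * b0 * z ^ (t + 1)) * (a1 * b1 * z ^ (t + 1)) := by rw [hu, hv]; ring
          _ ≤ L * L := mul_le_mul p00 p11 (by positivity) hLpos.le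
      have hsum : (u + v) * z ≤ z * L * z + L := by
        have h1 : 0 ≤ (z * L - u) * (z * L - v) :=
          mul_nonneg (by linarith) (by linarith)
        have h2 : ((u + v) * z) * L ≤ (z * L * z + L) * L := by nlinarith
        exact le_of_mul_le_mul_right h2 hLpos
      rw [hAr, hBr, pow_succ ((1 + z) ^ 2 / z), ← hL, ← mul_div_assoc, le_div_iff₀ hz0]
      have : (a0 + a1) * (b0 + b1) * z ^ (t + 1) * z
          = (a0 * b0 * z ^ (t + 1)) * z + (a1 * b1 * z ^ (t + 1)) * z + (u + v) * z := by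
        rw [hu, hv]; ring
      rw [this]
      have q00 : (a0 * b0 * z ^ (t + 1)) * z ≤ L * z := mul_le_mul_of_nonneg_right p00 hz0.le
      have q11 : (a1 * b1 * z ^ (t + 1)) * z ≤ L * z := mul_le_mul_of_nonneg_right p11 hz0.le
      have : L * (1 + z) ^ 2 = L * z + L * z + (z * L * z + L) := by ring
      linarith

lemma iso_param (e : ℕ) (he : 1 ≤ e) :
    ((1 + (1 + 1 / (e : ℝ))) ^ 2 / (1 + 1 / (e : ℝ))) ^ e * (1 + 3 / (4 * (e : ℝ)))
      ≤ 4 ^ e * (1 + 1 / (e : ℝ)) := by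
  have he' : (0 : ℝ) < e := by exact_mod_cast he
  set κ : ℝ := (2 * (e : ℝ) + 1) ^ 2 / (4 * e * (e + 1)) with hκ
  have hκ0 : 0 < κ := by positivity
  have h1 : (1 + (1 + 1 / (e : ℝ))) ^ 2 / (1 + 1 / (e : ℝ)) = 4 * κ := by
    rw [hκ]; field_simp; ring
  rw [h1, mul_pow, mul_assoc]
  refine mul_le_mul_of_nonneg_left ?_ (by positivity)
  -- Bernoulli for the inverse
  have h2 : κ⁻¹ = 1 + (-(1 / (2 * (e : ℝ) + 1) ^ 2)) := by
    rw [hκ]; field_simp; ring
  have h3 : 1 + (e : ℝ) * (-(1 / (2 * (e : ℝ) + 1) ^ 2)) ≤ κ⁻¹ ^ e := by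
    rw [h2]
    refine one_add_mul_le_pow ?_ e
    have : 1 / (2 * (e : ℝ) + 1) ^ 2 ≤ 1 := by
      rw [div_le_one (by positivity)]
      nlinarith
    linarith
  have h4 : (4 * (e : ℝ) + 3) / (4 * (e + 1)) ≤ 1 + (e : ℝ) * (-(1 / (2 * (e : ℝ) + 1) ^ 2)) := by
    have : (e : ℝ) * (1 / (2 * (e : ℝ) + 1) ^ 2) ≤ 1 / (4 * (e + 1)) := by
      rw [mul_one_div, div_le_div_iff₀ (by positivity) (by positivity)]
      nlinarith
    have h5 : (4 * (e : ℝ) + 3) / (4 * (e + 1)) = 1 - 1 / (4 * (e + 1)) := by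
      field_simp; ring
    rw [h5]
    linarith
  have h5 := h4.trans h3
  rw [inv_pow, ← one_div, div_le_div_iff₀ (by positivity) (by positivity)] at h5
  have h6 : κ ^ e * (1 + 3 / (4 * (e : ℝ))) = (4 * (e : ℝ) + 3) * κ ^ e / (4 * e) := by
    field_simp
  rw [h6, div_le_iff₀ (by positivity)]
  have h7 : (1 + 1 / (e : ℝ)) * (4 * e) = 1 * (4 * (e + 1)) := by field_simp
  rw [h7]
  exact h5

lemma iso' {e m : ℕ} (he : 1 ≤ e) (X Y : Finset (Fin (e * m) → Fin 2))
    (h : ∀ x ∈ X, ∀ y ∈ Y, m + agr x y ≤ e * m) :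
    (X.card : ℝ) * Y.card * (1 + 3 / (4 * (e : ℝ))) ^ m ≤ ((2 : ℝ) ^ (e * m)) ^ 2 := by
  have he' : (0 : ℝ) < e := by exact_mod_cast he
  have hz : (1 : ℝ) ≤ 1 + 1 / (e : ℝ) := by
    have : (0 : ℝ) < 1 / (e : ℝ) := by positivity
    linarith
  have h1 := iso hz (e * m) m X Y h
  have h2 := pow_le_pow_left₀ (by positivity) (iso_param e he) m
  rw [mul_pow, mul_pow, ← pow_mul] at h2
  have h3 : (X.card : ℝ) * Y.card * (1 + 3 / (4 * (e : ℝ))) ^ m * (1 + 1 / (e : ℝ)) ^ m
      ≤ ((2 : ℝ) ^ (e * m)) ^ 2 * (1 + 1 / (e : ℝ)) ^ m := by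
    calc (X.card : ℝ) * Y.card * (1 + 3 / (4 * (e : ℝ))) ^ m * (1 + 1 / (e : ℝ)) ^ m
        = ((X.card : ℝ) * Y.card * (1 + 1 / (e : ℝ)) ^ m) * (1 + 3 / (4 * (e : ℝ))) ^ m := by ring
      _ ≤ ((1 + (1 + 1 / (e : ℝ))) ^ 2 / (1 + 1 / (e : ℝ))) ^ (e * m)
            * (1 + 3 / (4 * (e : ℝ))) ^ m := mul_le_mul_of_nonneg_right h1 (by positivity)
      _ ≤ (4 ^ e) ^ m * (1 + 1 / (e : ℝ)) ^ m := h2
      _ = ((2 : ℝ) ^ (e * m)) ^ 2 * (1 + 1 / (e : ℝ)) ^ m := by
          congr 1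
          rw [← pow_mul, ← pow_mul, mul_comm (e * m) 2, pow_mul (2 : ℝ) 2]
          norm_num
  exact le_of_mul_le_mul_right h3 (by positivity)

end N598.TP
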