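import Mathlib
import Pool.Agent.N598.TP.Lower

/-! # Protocols with one-sided error: the two lower bounds -/

namespace N598.TP

open Finset

lemma frac_le {n M : ℕ} {Ω : Type} [Fintype Ω] [Nonempty Ω]
    (A B : Ω → Fin M → Set (SimpleGraph (Fin n))) (G H : SimpleGraph (Fin n)) (θ : ℝ)
    [DecidablePred fun ω => ∃ i, G ∈ A ω i ∧ H ∈ B ω i]
    (h : θ ≤ frac A B G H) :
    θ * Fintype.card Ω ≤ ((univ.filter (fun ω => ∃ i, G ∈ A ω i ∧ H ∈ B ω i)).card : ℝ) := by
  unfold frac at h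
  have hpos : (0 : ℝ) < Fintype.card Ω := by exact_mod_cast Fintype.card_pos
  rw [Nat.card_eq_fintype_card, Nat.card_eq_fintype_card, le_div_iff₀ hpos,
    Fintype.card_subtype] at h
  exact h

/-- Protocols which accept no pair without a cover of size `(2 e - 1) m`. -/
theorem no_false_accept (e : ℕ) (he : 1 ≤ e) (n m : ℕ) (hn : 12 * e ^ 2 * m ≤ n) :
    ∃ S : Set (Sym2 (Fin n)), ∀ (Ω : Type) [Fintype Ω] [Nonempty Ω] (M : ℕ)
      (A B : Ω → Fin M → Set (SimpleGraph (Fin n))) (θ : ℝ), 0 ≤ θ →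
      (∀ G H : SimpleGraph (Fin n), Valid S G H →
        (∃ C, IsCover (G ⊔ H) C ∧ C.card ≤ e * m) → θ ≤ frac A B G H) →
      (∀ (ω : Ω) (i : Fin M) (G H : SimpleGraph (Fin n)), Valid S G H → G ∈ A ω i → H ∈ B ω i →
        ∃ C, IsCover (G ⊔ H) C ∧ C.card ≤ (2 * e - 1) * m) →
      θ * (4 / 3) ^ m ≤ M := by
  classical
  have hcard : Fintype.card (Fin 3 × Fin (e * m) × Fin (4 * e)) ≤ Fintype.card (Fin n) := by
    simp only [Fintype.card_prod, Fintype.card_fin]
    calc 3 * (e * m * (4 * e)) = 12 * e ^ 2 * m := by ring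
      _ ≤ n := hn
  obtain ⟨ι⟩ := Function.Embedding.nonempty_of_card_le hcard
  refine ⟨pairs ι, ?_⟩
  intro Ω _ _ M A B θ hθ hyes hno
  let Gf : (Fin (e * m) → Fin (4 * e)) → SimpleGraph (Fin n) := mat ι 1 one_ne
  let Hf : (Fin (e * m) → Fin (4 * e)) → SimpleGraph (Fin n) := mat ι 2 two_ne
  have : NeZero (4 * e) := ⟨by omega⟩
  have hmain : θ ^ 2 * (16 / 9) ^ m ≤ (M : ℝ) ^ 2 := by
    refine cover_count (V := Fin (e * m) → Fin (4 * e)) (Ω := Ω) M
      (fun ω i => univ.filter (fun f => Gf f ∈ A ω i ∧ Hf f ∈ B ω i))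
      (fun f ω => ∃ i, Gf f ∈ A ω i ∧ Hf f ∈ B ω i) ((16 / 9) ^ m) θ (by positivity) hθ ?_ ?_ ?_
    · rintro f ω ⟨i, hi⟩
      exact ⟨i, mem_filter.2 ⟨mem_univ _, hi⟩⟩
    · intro ω i
      set X := univ.filter (fun f => Gf f ∈ A ω i) with hX
      set Y := univ.filter (fun f => Hf f ∈ B ω i) with hY
      have hXY := many_agr' he X Y (fun x hx y hy => by
        obtain ⟨C, hC, hCc⟩ := hno ω i (Gf x) (Hf y) (mat_valid ι x y) (mem_filter.1 hx).2
          (mem_filter.1 hy).2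
        have h1 := mat_lower ι 1 2 one_ne two_ne x y C hC
        obtain ⟨e', rfl⟩ : ∃ e', e = e' + 1 := ⟨e - 1, by omega⟩
        have h3 : (2 * (e' + 1) - 1) = 2 * e' + 1 := by omega
        rw [h3] at hCc
        have h5 : 2 * ((e' + 1) * m) = (2 * e' + 1) * m + m := by ring
        omega)
      have hDX : (univ.filter (fun f => Gf f ∈ A ω i ∧ Hf f ∈ B ω i)).card ≤ X.card :=
        Finset.card_le_card (fun f hf => mem_filter.2 ⟨mem_univ _, (mem_filter.1 hf).2.1⟩)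
      have hDY : (univ.filter (fun f => Gf f ∈ A ω i ∧ Hf f ∈ B ω i)).card ≤ Y.card :=
        Finset.card_le_card (fun f hf => mem_filter.2 ⟨mem_univ _, (mem_filter.1 hf).2.2⟩)
      have hDX' : ((univ.filter (fun f => Gf f ∈ A ω i ∧ Hf f ∈ B ω i)).card : ℝ) ≤ X.card := by
        exact_mod_cast hDX
      have hDY' : ((univ.filter (fun f => Gf f ∈ A ω i ∧ Hf f ∈ B ω i)).card : ℝ) ≤ Y.card := by
        exact_mod_cast hDY
      have hc : (Fintype.card (Fin (e * m) → Fin (4 * e)) : ℝ) = ((4 * e : ℕ) : ℝ) ^ (e * m) := by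
        rw [Fintype.card_fun, Fintype.card_fin, Fintype.card_fin]
        push_cast
        ring
      rw [hc]
      refine le_trans ?_ hXY
      rw [sq]
      exact mul_le_mul_of_nonneg_right
        (mul_le_mul hDX' hDY' (Nat.cast_nonneg _) (Nat.cast_nonneg _)) (by positivity)
    · intro f
      refine frac_le A B (Gf f) (Hf f) θ (hyes _ _ (mat_valid ι f f) ?_)
      obtain ⟨C, hC, hCc⟩ := mat_upper ι 1 2 one_ne two_ne f f
      rw [agr_self] at hCc
      exact ⟨C, hC, by omega⟩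
  have h43 : ((4 / 3 : ℝ) ^ m) ^ 2 = (16 / 9) ^ m := by
    rw [← pow_mul, mul_comm, pow_mul]; norm_num
  refine le_of_sq_le_sq ?_ (Nat.cast_nonneg M)
  rw [mul_pow, h43]
  exact hmain

/-- Protocols which reject no pair with a cover of size `(e + 1) m`. -/
theorem no_false_reject (e : ℕ) (he : 1 ≤ e) (n m : ℕ) (hn : 6 * e * m ≤ n) :
    ∃ S : Set (Sym2 (Fin n)), ∀ (Ω : Type) [Fintype Ω] [Nonempty Ω] (M : ℕ)
      (A B : Ω → Fin M → Set (SimpleGraph (Fin n))) (θ : ℝ), 0 ≤ θ →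
      (∀ G H : SimpleGraph (Fin n), Valid S G H →
        (∀ C, IsCover (G ⊔ H) C → 2 * e * m ≤ C.card) → θ ≤ frac A B G H) →
      (∀ (ω : Ω) (i : Fin M) (G H : SimpleGraph (Fin n)), Valid S G H → G ∈ A ω i → H ∈ B ω i →
        ∀ C, IsCover (G ⊔ H) C → (e + 1) * m < C.card) →
      θ ^ 2 * (1 + 3 / (4 * (e : ℝ))) ^ m ≤ (M : ℝ) ^ 2 := by
  classical
  have hcard : Fintype.card (Fin 3 × Fin (e * m) × Fin 2) ≤ Fintype.card (Fin n) := by
    simp only [Fintype.card_prod, Fintype.card_fin]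
    calc 3 * (e * m * 2) = 6 * e * m := by ring
      _ ≤ n := hn
  obtain ⟨ι⟩ := Function.Embedding.nonempty_of_card_le hcard
  refine ⟨pairs ι, ?_⟩
  intro Ω _ _ M A B θ hθ hno hyes
  let Gf : (Fin (e * m) → Fin 2) → SimpleGraph (Fin n) := mat ι 1 one_ne
  let Hf : (Fin (e * m) → Fin 2) → SimpleGraph (Fin n) := mat ι 2 two_ne
  let cp : (Fin (e * m) → Fin 2) → (Fin (e * m) → Fin 2) := fun f i => f i + 1
  have hcp : Function.Injective cp := by
    intro f g h
    funext i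
    have := congrFun h i
    exact add_right_cancel this
  have hagr : ∀ f, agr f (cp f) = 0 := by
    intro f
    unfold agr
    rw [Finset.card_eq_zero, Finset.filter_eq_empty_iff]
    intro i _ h
    have : ∀ a : Fin 2, a ≠ a + 1 := by decide
    exact this (f i) h
  refine cover_count (V := Fin (e * m) → Fin 2) (Ω := Ω) M
      (fun ω i => univ.filter (fun f => Gf f ∈ A ω i ∧ Hf (cp f) ∈ B ω i))
      (fun f ω => ∃ i, Gf f ∈ A ω i ∧ Hf (cp f) ∈ B ω i) ((1 + 3 / (4 * (e : ℝ))) ^ m) θ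
      (by positivity) hθ ?_ ?_ ?_
  · rintro f ω ⟨i, hi⟩
    exact ⟨i, mem_filter.2 ⟨mem_univ _, hi⟩⟩
  · intro ω i
    set X := univ.filter (fun f => Gf f ∈ A ω i) with hX
    set Y := univ.filter (fun f => Hf f ∈ B ω i) with hY
    have hXY := iso' he X Y (fun x hx y hy => by
      obtain ⟨C, hC, hCc⟩ := mat_upper ι 1 2 one_ne two_ne x y
      have h1 := hyes ω i (Gf x) (Hf y) (mat_valid ι x y) (mem_filter.1 hx).2
        (mem_filter.1 hy).2 C hC
      have h2 : (e + 1) * m = e * m + m := by ring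
      omega)
    have hDX : (univ.filter (fun f => Gf f ∈ A ω i ∧ Hf (cp f) ∈ B ω i)).card ≤ X.card :=
      Finset.card_le_card (fun f hf => mem_filter.2 ⟨mem_univ _, (mem_filter.1 hf).2.1⟩)
    have hDY : (univ.filter (fun f => Gf f ∈ A ω i ∧ Hf (cp f) ∈ B ω i)).card ≤ Y.card :=
      Finset.card_le_card_of_injOn cp
        (fun f hf => mem_coe.2 (mem_filter.2 ⟨mem_univ _, (mem_filter.1 (mem_coe.1 hf)).2.2⟩))
        (hcp.injOn)
    have hDX' : ((univ.filter (fun f => Gf f ∈ A ω i ∧ Hf (cp f) ∈ B ω i)).card : ℝ)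
        ≤ X.card := by exact_mod_cast hDX
    have hDY' : ((univ.filter (fun f => Gf f ∈ A ω i ∧ Hf (cp f) ∈ B ω i)).card : ℝ)
        ≤ Y.card := by exact_mod_cast hDY
    have hc : (Fintype.card (Fin (e * m) → Fin 2) : ℝ) = (2 : ℝ) ^ (e * m) := by
      rw [Fintype.card_fun, Fintype.card_fin, Fintype.card_fin]
      push_cast
      ring
    rw [hc]
    refine le_trans ?_ hXY
    rw [sq]
    exact mul_le_mul_of_nonneg_right
      (mul_le_mul hDX' hDY' (Nat.cast_nonneg _) (Nat.cast_nonneg _)) (by positivity)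
  · intro f
    refine frac_le A B (Gf f) (Hf (cp f)) θ (hno _ _ (mat_valid ι f (cp f)) ?_)
    intro C hC
    have := mat_lower ι 1 2 one_ne two_ne f (cp f) C hC
    rw [hagr] at this
    have h2 : 2 * e * m = 2 * (e * m) := by ring
    omega

end N598.TP
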