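import Mathlib
import Pool.Agent.N598.TP.OneSided

/-! # Private coins and two-sided error: about `log n` bits are needed -/

namespace N598.TP

open Finset

/-- One-way protocols with private coins and error `1 / 3` need many messages. -/
theorem private_lower (e : ℕ) (he : 1 ≤ e) (n m : ℕ) (hn : 12 * e ^ 2 * m ≤ n) :
    ∃ S : Set (Sym2 (Fin n)), ∀ (M : ℕ) (P : OneWay n M),
      (∀ G H : SimpleGraph (Fin n), Valid S G H →
        ((∃ C, IsCover (G ⊔ H) C ∧ C.card ≤ e * m) → 2 / 3 ≤ P.accept G H) ∧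
        ((∀ C, IsCover (G ⊔ H) C → (2 * e - 1) * m < C.card) → P.accept G H ≤ 1 / 3)) →
      (4 / 3 : ℝ) ^ m ≤ (6 * M + 2) ^ M := by
  classical
  obtain ⟨S, hS⟩ := no_false_accept e he n m hn
  refine ⟨S, fun M P hP => ?_⟩
  set Q : ℕ := 6 * M + 1 with hQ
  have hQpos : (0 : ℝ) < Q := by rw [hQ]; positivity
  -- rounded probabilities
  let rd : SimpleGraph (Fin n) → Fin M → ℕ := fun G i => ⌊(Q : ℝ) * P.prob G i⌋₊
  have hle1 : ∀ G i, P.prob G i ≤ 1 := by
    intro G i
    rw [← P.sum_one G]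
    exact Finset.single_le_sum (f := fun i => P.prob G i) (fun j _ => P.nonneg G j)
      (Finset.mem_univ i)
  have hrd1 : ∀ G i, (rd G i : ℝ) ≤ Q * P.prob G i := fun G i =>
    Nat.floor_le (mul_nonneg hQpos.le (P.nonneg G i))
  have hrd2 : ∀ G i, (Q : ℝ) * P.prob G i < rd G i + 1 := fun G i => Nat.lt_floor_add_one _
  have hrd3 : ∀ G i, rd G i < Q + 1 := by
    intro G i
    have h1 : (rd G i : ℝ) ≤ Q := (hrd1 G i).trans (by
      have := mul_le_mul_of_nonneg_left (hle1 G i) hQpos.le
      linarith)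
    have h2 : rd G i ≤ Q := by exact_mod_cast h1
    omega
  -- the rectangles
  let σ : Type := Fin M → Fin (Q + 1)
  let ε : Fin ((Q + 1) ^ M) ≃ σ := finFunctionFinEquiv.symm
  let A : Unit → Fin ((Q + 1) ^ M) → Set (SimpleGraph (Fin n)) :=
    fun _ i => {G | ∀ j, rd G j = (ε i j : ℕ)}
  let B : Unit → Fin ((Q + 1) ^ M) → Set (SimpleGraph (Fin n)) :=
    fun _ i => {H | 1 / 2 < ∑ j, if P.acc j H then ((ε i j : ℕ) : ℝ) / Q else 0}
  have hmain := hS Unit ((Q + 1) ^ M) A B 1 (by norm_num) ?_ ?_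
  · rw [one_mul] at hmain
    refine hmain.trans (le_of_eq ?_)
    rw [hQ]
    push_cast
    ring
  · intro G H hV hyes
    have hacc := (hP G H hV).1 hyes
    have hex : ∃ i, G ∈ A () i ∧ H ∈ B () i := by
      let d : σ := fun j => ⟨rd G j, hrd3 G j⟩
      refine ⟨ε.symm d, ?_, ?_⟩
      · intro j
        rw [Equiv.apply_symm_apply]
      · change 1 / 2 < ∑ j, if P.acc j H then ((ε (ε.symm d) j : ℕ) : ℝ) / Q else 0
        rw [Equiv.apply_symm_apply]
        have h1 : P.accept G H ≤ (∑ j, if P.acc j H then ((d j : ℕ) : ℝ) / Q else 0) + M / Q := by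
          unfold OneWay.accept
          have h2 : (M : ℝ) / Q = ∑ _j : Fin M, (1 : ℝ) / Q := by
            rw [Finset.sum_const, Finset.card_univ, Fintype.card_fin, nsmul_eq_mul]
            ring
          rw [h2, ← Finset.sum_add_distrib]
          refine Finset.sum_le_sum (fun j _ => ?_)
          by_cases h : P.acc j H
          · rw [if_pos h, if_pos h, ← add_div, le_div_iff₀ hQpos, mul_comm]
            exact (hrd2 G j).le
          · rw [if_neg h, if_neg h, zero_add]
            positivity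
        have h3 : (M : ℝ) / Q < 1 / 6 := by
          rw [div_lt_div_iff₀ hQpos (by norm_num), hQ]
          push_cast
          linarith
        linarith
    unfold frac
    have hone : Nat.card {ω : Unit // ∃ i, G ∈ A ω i ∧ H ∈ B ω i} = 1 := by
      rw [Nat.card_eq_one_iff_unique]
      exact ⟨⟨fun a b => Subtype.ext rfl⟩, ⟨⟨(), hex⟩⟩⟩
    rw [hone]
    simp
  · intro ω i G H hV hG hH
    by_contra hno
    push Not at hno
    have hrej := (hP G H hV).2 hno
    have h1 : (∑ j, if P.acc j H then ((ε i j : ℕ) : ℝ) / Q else 0) ≤ P.accept G H := by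
      unfold OneWay.accept
      refine Finset.sum_le_sum (fun j _ => ?_)
      by_cases h : P.acc j H
      · rw [if_pos h, if_pos h, div_le_iff₀ hQpos, mul_comm, ← hG j]
        exact hrd1 G j
      · rw [if_neg h, if_neg h]
    have h2 : 1 / 2 < ∑ j, if P.acc j H then ((ε i j : ℕ) : ℝ) / Q else 0 := hH
    linarith

end N598.TP
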