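import Mathlib
import Pool.Agent.N598.TP.Hash

/-! # The one-way protocol with public coins and a constant number of messages -/

namespace N598.TP

open Finset

variable {n : ℕ}

/-- The constant `1 / 400`. -/
noncomputable def cp : ℝ := 1 / 400

lemma cp_pos : 0 < cp := by norm_num [cp]

open Classical in
/-- Alice's message. -/
noncomputable def pmsg {t L : ℕ} (F : HashFam n L) (w : Fin n → ℝ) (K : ℝ)
    (ω : Fin t → F.Coin) (G : SimpleGraph (Fin n)) : Msg t (Fin L) :=
  if Has w K G then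
    if Has w ((1 - cp) * K) G then some none
    else some (some (fun j => F.lab (ω j) (uset w K cp G)))
  else none

/-- Bob's decision. -/
def pacc {t L : ℕ} (F : HashFam n L) (w : Fin n → ℝ) (K : ℝ)
    (ω : Fin t → F.Coin) : Msg t (Fin L) → SimpleGraph (Fin n) → Prop
  | none, _ => False
  | some none, H => Has w K H
  | some (some y), H => Has w K H ∧ (Has w ((1 - cp) * K) H ∨
      ∃ j, y j = F.lab (ω j) (uset w K cp H))

open Classical in
/-- Acceptance probability. -/
noncomputable def paccept (t : ℕ) {L : ℕ} (F : HashFam n L) (w : Fin n → ℝ) (K : ℝ)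
    (G H : SimpleGraph (Fin n)) : ℝ :=
  ∑ ω : Fin t → F.Coin, if pacc F w K ω (pmsg F w K ω G) H then ∏ j, F.prob (ω j) else 0

lemma fam_tot (t : ℕ) {L : ℕ} (F : HashFam n L) :
    ∑ ω : Fin t → F.Coin, ∏ j, F.prob (ω j) = 1 := by
  rw [← Fintype.sum_pow, F.sum_one, one_pow]

lemma paccept_one {t L : ℕ} {F : HashFam n L} {w : Fin n → ℝ} {K : ℝ}
    {G H : SimpleGraph (Fin n)} (h : ∀ ω : Fin t → F.Coin, pacc F w K ω (pmsg F w K ω G) H) :
    paccept t F w K G H = 1 := by
  classical
  unfold paccept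
  rw [← fam_tot t F]
  exact Finset.sum_congr rfl (fun ω _ => by rw [if_pos (h ω)])

lemma paccept_zero {t L : ℕ} {F : HashFam n L} {w : Fin n → ℝ} {K : ℝ}
    {G H : SimpleGraph (Fin n)} (h : ∀ ω : Fin t → F.Coin, ¬ pacc F w K ω (pmsg F w K ω G) H) :
    paccept t F w K G H = 0 := by
  classical
  unfold paccept
  exact Finset.sum_eq_zero (fun ω _ => by rw [if_neg (h ω)])

lemma paccept_main {t L : ℕ} {F : HashFam n L} {w : Fin n → ℝ} {K : ℝ}
    {G H : SimpleGraph (Fin n)}
    (h1 : Has w K G) (h2 : ¬ Has w ((1 - cp) * K) G) (h3 : Has w K H)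
    (h4 : ¬ Has w ((1 - cp) * K) H) :
    paccept t F w K G H = 1 - (1 - F.same (uset w K cp G) (uset w K cp H)) ^ t := by
  classical
  have h := accept_prod F.prob
    (fun y => F.lab y (uset w K cp G) = F.lab y (uset w K cp H)) t
  have e : ∑ y, (if F.lab y (uset w K cp G) = F.lab y (uset w K cp H) then 0 else F.prob y)
      = 1 - F.same (uset w K cp G) (uset w K cp H) := by
    unfold HashFam.same
    rw [← F.sum_one, ← Finset.sum_sub_distrib]
    refine Finset.sum_congr rfl (fun y _ => ?_)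
    split <;> simp
  rw [F.sum_one, one_pow, e] at h
  rw [← h]
  unfold paccept
  refine Finset.sum_congr rfl (fun ω _ => ?_)
  have hm : pmsg F w K ω G = some (some (fun j => F.lab (ω j) (uset w K cp G))) := by
    unfold pmsg
    rw [if_pos h1, if_neg h2]
  rw [hm]
  have hiff : pacc F w K ω (some (some (fun j => F.lab (ω j) (uset w K cp G)))) H
      ↔ ∃ j, F.lab (ω j) (uset w K cp G) = F.lab (ω j) (uset w K cp H) := by
    simp only [pacc, h3, h4, true_and, false_or]
  simp only [hiff]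

/-- The two properties of the family which are used. -/
def FamOK (w : Fin n → ℝ) (K : ℝ) {L : ℕ} (F : HashFam n L) : Prop :=
  0 < K → ∀ A B : Finset (Fin n), (1 - cp) * K ≤ wt w (A ∪ B) →
    wt w (A ∩ B) / wt w (A ∪ B) ≤ F.same A B ∧
      F.same A B ≤ wt w (A ∩ B) / wt w (A ∪ B) + 1 / 2000 + 1 / L

lemma exists_famOK (w : Fin n → ℝ) (hw : ∀ v, 0 ≤ w v) (K : ℝ) (L : ℕ) (hL : 1 ≤ L) :
    ∃ F : HashFam n L, FamOK w K F := by
  by_cases hK : 0 < K
  · have : (0 : ℝ) < 1 - cp := by norm_num [cp]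
    obtain ⟨F, hF⟩ := exists_fam w hw ((1 - cp) * K) (1 / 2000) (by positivity) (by norm_num) L hL
    exact ⟨F, fun _ => hF⟩
  · obtain ⟨F, -⟩ := exists_fam w hw 1 1 (by norm_num) (by norm_num) L hL
    exact ⟨F, fun h => (hK h).elim⟩

lemma psound (w : Fin n → ℝ) (hw : ∀ v, 0 ≤ w v) (K : ℝ) (F : HashFam n 64) (hF : FamOK w K F)
    (G H : SimpleGraph (Fin n))
    (hno : ∀ C, IsCover (G ⊔ H) C → (2 - cp) * K < wt w C) : paccept 12 F w K G H ≤ 1 / 3 := by
  classical
  by_cases h1 : Has w K G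
  swap
  · rw [paccept_zero]
    · norm_num
    · intro ω
      unfold pmsg
      rw [if_neg h1]
      exact id
  by_cases h3 : Has w K H
  swap
  · rw [paccept_zero]
    · norm_num
    · intro ω
      unfold pmsg
      rw [if_pos h1]
      by_cases h5 : Has w ((1 - cp) * K) G
      · rw [if_pos h5]; exact h3
      · rw [if_neg h5]; exact fun h => h3 h.1
  by_cases h2 : Has w ((1 - cp) * K) G
  · exact (light hw hno (by linarith) h2 h3).elim
  by_cases h4 : Has w ((1 - cp) * K) H
  · exact (light hw hno (by linarith) h1 h4).elim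
  rw [paccept_main h1 h2 h3 h4]
  obtain ⟨hK, hU⟩ := good_of hw cp_pos h1 h2
  obtain ⟨-, hV⟩ := good_of hw cp_pos h3 h4
  have hall := inter_no hw hU hV hno
  have hun := hno _ (hU.cover.union_sup hV.cover)
  obtain ⟨-, hs⟩ := hF hK (uset w K cp G) (uset w K cp H) (by linarith)
  set I := wt w (uset w K cp G ∩ uset w K cp H)
  set V := wt w (uset w K cp G ∪ uset w K cp H)
  have hone := F.same_le_one (uset w K cp G) (uset w K cp H)
  set S := F.same (uset w K cp G) (uset w K cp H)
  simp only [cp] at hall hun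
  have hq : I / V ≤ 9 / 799 := by
    rw [div_le_div_iff₀ (by linarith) (by norm_num)]
    linarith
  have hb := one_add_mul_le_pow (a := -S) (by linarith) 12
  push_cast at hb hs
  rw [← sub_eq_add_neg] at hb
  norm_num at hs
  linarith

lemma pcomplete (w : Fin n → ℝ) (hw : ∀ v, 0 ≤ w v) (K : ℝ) (F : HashFam n 64)
    (hF : FamOK w K F) (G H : SimpleGraph (Fin n))
    (hyes : ∃ C, IsCover (G ⊔ H) C ∧ wt w C ≤ K) : 2 / 3 ≤ paccept 12 F w K G H := by
  classical
  have h1 : Has w K G := by obtain ⟨C, hC, hCK⟩ := hyes; exact ⟨C, hC.left, hCK⟩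
  have h3 : Has w K H := by obtain ⟨C, hC, hCK⟩ := hyes; exact ⟨C, hC.right, hCK⟩
  by_cases h2 : Has w ((1 - cp) * K) G
  · rw [paccept_one]
    · norm_num
    · intro ω
      unfold pmsg
      rw [if_pos h1, if_pos h2]
      exact h3
  by_cases h4 : Has w ((1 - cp) * K) H
  · rw [paccept_one]
    · norm_num
    · intro ω
      unfold pmsg
      rw [if_pos h1, if_neg h2]
      exact ⟨h3, Or.inl h4⟩
  rw [paccept_main h1 h2 h3 h4]
  obtain ⟨hK, hU⟩ := good_of hw cp_pos h1 h2
  obtain ⟨-, hV⟩ := good_of hw cp_pos h3 h4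
  have hall := inter_yes hw h2 hU hV hyes
  have hUle := hU.le
  have hVle := hV.le
  have hlow := low_of h2 _ hU.cover
  have hUV := wt_mono hw (Finset.subset_union_left :
    uset w K cp G ⊆ uset w K cp G ∪ uset w K cp H)
  obtain ⟨hs, -⟩ := hF hK (uset w K cp G) (uset w K cp H) (by linarith)
  have hui := wt_union_add_inter w (uset w K cp G) (uset w K cp H)
  set I := wt w (uset w K cp G ∩ uset w K cp H)
  set V := wt w (uset w K cp G ∪ uset w K cp H)
  have hone := F.same_le_one (uset w K cp G) (uset w K cp H)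
  set S := F.same (uset w K cp G) (uset w K cp H)
  simp only [cp] at *
  have hp : 389 / 4423 ≤ I / V := by
    rw [div_le_div_iff₀ (by norm_num) (by linarith)]
    linarith
  have hpow : (1 - S) ^ 12 ≤ (1 - 389 / 4423 : ℝ) ^ 12 :=
    pow_le_pow_left₀ (by linarith) (by linarith) 12
  have hnum : (1 - 389 / 4423 : ℝ) ^ 12 ≤ 1 / 3 := by norm_num
  linarith

/-- The protocol with an arbitrary numbering of the messages. -/
theorem exists_public (w : Fin n → ℝ) (hw : ∀ v, 0 ≤ w v) (K : ℝ) :
    ∃ P : PubOneWay n (2 ^ 72 + 2), ∀ G H : SimpleGraph (Fin n),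
      ((∃ C, IsCover (G ⊔ H) C ∧ wt w C ≤ K) → 2 / 3 ≤ P.accept G H) ∧
      ((∀ C, IsCover (G ⊔ H) C → (2 - 1 / 400) * K < wt w C) → P.accept G H ≤ 1 / 3) := by
  classical
  have hcard : Fintype.card (Msg 12 (Fin 64)) = 2 ^ 72 + 2 := by
    simp only [Msg, Fintype.card_option, Fintype.card_fun, Fintype.card_fin]
    norm_num
  let e : Msg 12 (Fin 64) ≃ Fin (2 ^ 72 + 2) := Fintype.equivFinOfCardEq hcard
  obtain ⟨F, hF⟩ := exists_famOK w hw K 64 (by norm_num)
  let P : PubOneWay n (2 ^ 72 + 2) :=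
    { Coin := Fin 12 → F.Coin
      fin := inferInstance
      prob := fun ω => ∏ j, F.prob (ω j)
      nonneg := fun ω => Finset.prod_nonneg (fun j _ => F.nonneg _)
      sum_one := fam_tot 12 F
      msg := fun ω G => e (pmsg F w K ω G)
      acc := fun ω i H => pacc F w K ω (e.symm i) H }
  have hP : ∀ G H, P.accept G H = paccept 12 F w K G H := by
    intro G H
    unfold PubOneWay.accept paccept
    refine Finset.sum_congr rfl (fun ω _ => ?_)
    simp only [P, Equiv.symm_apply_apply]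
  refine ⟨P, fun G H => ⟨fun h => ?_, fun h => ?_⟩⟩
  · rw [hP]; exact pcomplete w hw K F hF G H h
  · rw [hP]; exact psound w hw K F hF G H h

end N598.TP
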